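import Pool.Agent.FS.Rhombi.H

/-!
The abstract area estimate along four radii for an odd map.
-/

set_option autoImplicit false

open MeasureTheory Set Complex Filter Topology Metric
open scoped Real ComplexConjugate

namespace Pool.Agent.FS.Rhombi

open Pool.Agent.Lib.MP_7c5c90_an Pool.Agent.Lib.MP_7c5c90_an.RP Pool.Agent.Lib.MP_7c5c90_an.TR

theorem core4 {U : Set ℂ} {F G H1 H Φ Φ' : ℂ → ℂ} (hF : DifferentiableOn ℂ F U)
    (hG : DifferentiableOn ℂ G U) (iF : IntegrableOn (fun z => ‖F z‖ ^ 2) U)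
    (iG : IntegrableOn (fun z => ‖G z‖ ^ 2) U) (h1 : ∀ z ∈ U, HasDerivAt H1 (F z * G z) z)
    (h2 : ∀ z ∈ U, HasDerivAt H (H1 z) z) (hΦ : ∀ w ∈ ball (0 : ℂ) 1, HasDerivAt Φ (Φ' w) w)
    (hΦ' : DifferentiableOn ℂ Φ' (ball 0 1)) (hΦc : ContinuousOn Φ (closedBall 0 1))
    (hmap : ∀ w ∈ closedBall (0 : ℂ) 1, Φ w ∈ U) (hinj : InjOn Φ (ball 0 1)) (hF0 : F (Φ 0) = 0)
    (h10 : H1 (Φ 0) = 0) (h20 : H (Φ 0) = 0) (hodd : ∀ w, Φ (-w) = 2 * Φ 0 - Φ w)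
    (hev : ∀ w, Φ' (-w) = Φ' w) {k : ℝ} (hk : 0 ≤ k) {a0 a1 : ℂ}
    (hw : ∀ p ∈ [(a0, (1 : ℂ)), (a1, I)], ∀ x : ℝ, 0 < x → x < 1 →
      4 * x * (‖p.1‖ * ‖Φ p.2 - Φ (p.2 * x)‖) ≤ k * (1 - x ^ 4) * ‖Φ' (p.2 * x)‖) :
    2 * π * ‖a0 * (H (Φ 1) + H (Φ (-1))) + a1 * (H (Φ I) + H (Φ (-I)))‖ ≤
      k * ((∫ z in U, ‖F z‖ ^ 2) + ∫ z in U, ‖G z‖ ^ 2) := by
  have hmap' : ∀ w ∈ ball (0 : ℂ) 1, Φ w ∈ U := fun w hw => hmap w (ball_subset_closedBall hw)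
  set E : ℂ → ℝ → ℂ := fun v s => H (Φ (v * (s ^ 2 : ℝ))) +
    (Φ v - Φ (v * (s ^ 2 : ℝ))) * H1 (Φ (v * (s ^ 2 : ℝ))) with hE
  set D : ℂ → ℝ → ℂ := fun v s => (Φ v - Φ (v * (s ^ 2 : ℝ))) *
    (F (Φ (v * (s ^ 2 : ℝ))) * G (Φ (v * (s ^ 2 : ℝ)))) * (Φ' (v * (s ^ 2 : ℝ)) * (v * (2 * s)))
    with hD
  have nv : ∀ v : ℂ, ‖v‖ = 1 → ∀ s : ℝ, ‖v * (s ^ 2 : ℝ)‖ = s ^ 2 := fun v hv s => by
    rw [norm_mul, hv, one_mul, Complex.norm_real, Real.norm_of_nonneg (sq_nonneg s)]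
  have mb : ∀ v : ℂ, ‖v‖ = 1 → ∀ s : ℝ, 0 ≤ s → s < 1 → v * (s ^ 2 : ℝ) ∈ ball (0 : ℂ) 1 :=
    fun v hv s a b => by
      rw [mem_ball_zero_iff, nv v hv]
      exact pow_lt_one₀ a b two_ne_zero
  have dE : ∀ v : ℂ, ‖v‖ = 1 → ∀ s : ℝ, 0 ≤ s → s < 1 → HasDerivAt (E v) (D v s) s :=
    fun v hv s a b => by
      have c1 : HasDerivAt (fun s : ℝ => v * (s ^ 2 : ℝ)) (v * (2 * s)) s := by
        have := ((hasDerivAt_pow 2 s).ofReal_comp).const_mul v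
        exact this.congr_deriv (by push_cast; ring)
      have c2 := (hΦ _ (mb v hv s a b)).comp_of_eq s c1 rfl
      have c3 := (h1 _ (hmap' _ (mb v hv s a b))).comp_of_eq s c2 rfl
      have c4 := (h2 _ (hmap' _ (mb v hv s a b))).comp_of_eq s c2 rfl
      refine (c4.add ((c2.const_sub (Φ v)).mul c3)).congr_deriv ?_
      simp only [hD, Function.comp_apply]
      ring
  have mc : ∀ v : ℂ, ‖v‖ = 1 → ∀ s ∈ Icc (0 : ℝ) 1, v * (s ^ 2 : ℝ) ∈ closedBall (0 : ℂ) 1 :=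
    fun v hv s hs => by
      rw [mem_closedBall_zero_iff, nv v hv]
      exact pow_le_one₀ hs.1 hs.2
  have cΦ : ∀ v : ℂ, ‖v‖ = 1 → ContinuousOn (fun s : ℝ => Φ (v * (s ^ 2 : ℝ))) (Icc 0 1) :=
    fun v hv => hΦc.comp (by fun_prop) (mc v hv)
  have cc : ∀ {X : ℂ → ℂ}, ContinuousOn X U → ∀ v : ℂ, ‖v‖ = 1 →
      ContinuousOn (fun s : ℝ => X (Φ (v * (s ^ 2 : ℝ)))) (Icc 0 1) :=
    fun hX v hv => hX.comp (cΦ v hv) fun s hs => hmap _ (mc v hv s hs)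
  have cE : ∀ v : ℂ, ‖v‖ = 1 → ContinuousOn (E v) (Icc 0 1) := fun v hv =>
    (cc (fun z hz => (h2 z hz).continuousAt.continuousWithinAt) v hv).add
      ((continuousOn_const.sub (cΦ v hv)).mul
        (cc (fun z hz => (h1 z hz).continuousAt.continuousWithinAt) v hv))
  have cD : ∀ v : ℂ, ‖v‖ = 1 → ∀ r : ℝ, r < 1 → ContinuousOn (D v) (Icc 0 r) := fun v hv r hr =>
    (((continuousOn_const.sub (cΦ v hv)).mul ((cc hF.continuousOn v hv).mul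
      (cc hG.continuousOn v hv))).mono (Icc_subset_Icc le_rfl hr.le)).mul
      ((hΦ'.continuousOn.comp (by fun_prop) fun s hs => mb v hv s hs.1 (hs.2.trans_lt hr)).mul
        (by fun_prop))
  have bD : ∀ a v : ℂ, ‖v‖ = 1 → ∀ s : ℝ, 0 < s → s < 1 →
      4 * s ^ 2 * (‖a‖ * ‖Φ v - Φ (v * (s ^ 2 : ℝ))‖) ≤
        k * (1 - (s ^ 2) ^ 4) * ‖Φ' (v * (s ^ 2 : ℝ))‖ →
      2 * s * ‖a * (D v s + D (-v) s)‖ ≤ k * ((1 - s ^ 8) *
        ‖F (Φ (v * (s ^ 2 : ℝ))) * Φ' (v * (s ^ 2 : ℝ)) *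
          (G (Φ (v * (s ^ 2 : ℝ))) * Φ' (v * (s ^ 2 : ℝ))) +
          F (Φ (-v * (s ^ 2 : ℝ))) * Φ' (-v * (s ^ 2 : ℝ)) *
            (G (Φ (-v * (s ^ 2 : ℝ))) * Φ' (-v * (s ^ 2 : ℝ)))‖) := fun a v hv s a' b h => by
    have e1 : D v s + D (-v) s = (Φ v - Φ (v * (s ^ 2 : ℝ))) * (Φ' (v * (s ^ 2 : ℝ)) * (v * (2 * s))) *
        (F (Φ (v * (s ^ 2 : ℝ))) * G (Φ (v * (s ^ 2 : ℝ))) +
          F (Φ (-v * (s ^ 2 : ℝ))) * G (Φ (-v * (s ^ 2 : ℝ)))) := by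
      have e0 : Φ (-v) - Φ (-v * (s ^ 2 : ℝ)) = -(Φ v - Φ (v * (s ^ 2 : ℝ))) := by
        rw [neg_mul, hodd, hodd]
        ring
      simp only [hD]
      rw [e0, show Φ' (-v * (s ^ 2 : ℝ)) = Φ' (v * (s ^ 2 : ℝ)) by rw [neg_mul, hev]]
      ring
    rw [e1, show Φ' (-v * (s ^ 2 : ℝ)) = Φ' (v * (s ^ 2 : ℝ)) by rw [neg_mul, hev],
      show ∀ A B C D' y : ℂ, A * y * (B * y) + C * y * (D' * y) = y * y * (A * B + C * D') from
        fun A B C D' y => by ring]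
    simp only [norm_mul, hv, Complex.norm_real, Real.norm_of_nonneg a'.le, Complex.norm_ofNat]
    generalize ‖Φ v - Φ (v * (s ^ 2 : ℝ))‖ = x at h
    have p1 := norm_nonneg (Φ' (v * (s ^ 2 : ℝ)))
    have p2 := norm_nonneg (F (Φ (v * (s ^ 2 : ℝ))) * G (Φ (v * (s ^ 2 : ℝ))) +
      F (Φ (-v * (s ^ 2 : ℝ))) * G (Φ (-v * (s ^ 2 : ℝ))))
    generalize ‖Φ' (v * (s ^ 2 : ℝ))‖ = y at *
    generalize ‖F (Φ (v * (s ^ 2 : ℝ))) * G (Φ (v * (s ^ 2 : ℝ))) +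
      F (Φ (-v * (s ^ 2 : ℝ))) * G (Φ (-v * (s ^ 2 : ℝ)))‖ = f at *
    linarith [mul_le_mul_of_nonneg_right h (mul_nonneg p1 p2)]
  have dF : ∀ {X : ℂ → ℂ}, DifferentiableOn ℂ X U →
      DifferentiableOn ℂ (fun w => X (Φ w) * Φ' w) (ball 0 1) := fun hX =>
    (hX.comp (fun w hw => (hΦ w hw).differentiableAt.differentiableWithinAt) hmap').mul hΦ'
  have s3 : ∀ r ∈ Ioo (0 : ℝ) 1, 2 * π * ‖a0 * (E 1 r + E (-1) r) + a1 * (E I r + E (-I) r)‖ ≤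
      k * ((∫ z in U, ‖F z‖ ^ 2) + ∫ z in U, ‖G z‖ ^ 2) := fun r hr => by
    obtain ⟨f1, f2⟩ := area_le hF iF hΦ hΦ' hmap' hinj hr
    obtain ⟨g1, g2⟩ := area_le hG iG hΦ hΦ' hmap' hinj hr
    have b1 := intervalIntegral.integral_eq_sub_of_hasDerivAt (a := 0) (b := r)
      (f := fun s => a0 * (E 1 s + E (-1) s) + a1 * (E I s + E (-I) s))
      (f' := fun s => a0 * (D 1 s + D (-1) s) + a1 * (D I s + D (-I) s)) (fun s hs => by
        rw [uIcc_of_le hr.1.le] at hs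
        have b := hs.2.trans_lt hr.2
        exact (((dE 1 norm_one s hs.1 b).add (dE _ norm_m1 s hs.1 b)).const_mul a0).add
          (((dE I Complex.norm_I s hs.1 b).add (dE _ norm_mI s hs.1 b)).const_mul a1))
      (ContinuousOn.intervalIntegrable_of_Icc hr.1.le
        ((continuousOn_const.mul ((cD 1 norm_one r hr.2).add (cD _ norm_m1 r hr.2))).add
          (continuousOn_const.mul ((cD I Complex.norm_I r hr.2).add (cD _ norm_mI r hr.2)))))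
    have b0 : ∀ v, E v 0 = 0 := fun v => by simp [hE, h10, h20]
    simp only [b0, mul_zero, add_zero, sub_zero] at b1
    have b2 := intervalIntegral.norm_integral_le_of_norm_le (μ := volume) (a := 0) (b := r)
      (f := fun s => a0 * (D 1 s + D (-1) s) + a1 * (D I s + D (-I) s)) hr.1.le
      (Eventually.of_forall fun s hs => ?_) ((f1.add g1).const_mul (k / (2 * π)))
    · rw [b1, intervalIntegral.integral_const_mul, intervalIntegral.integral_add f1 g1,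
        div_mul_eq_mul_div, le_div_iff₀' Real.two_pi_pos] at b2
      exact b2.trans (mul_le_mul_of_nonneg_left (add_le_add f2 g2) hk)
    have a := hs.1
    have b := hs.2.trans_lt hr.2
    have a2 : 0 < s ^ 2 := by positivity
    have b2 : s ^ 2 < 1 := pow_lt_one₀ a.le b two_ne_zero
    have t0 := bD a0 1 norm_one s a b (hw (a0, 1) (by simp) _ a2 b2)
    have t1 := bD a1 I Complex.norm_I s a b (hw (a1, I) (by simp) _ a2 b2)
    have t3 := mul_le_mul_of_nonneg_left (pair (dF hF) (dF hG) (by simp [hF0]) a b) hk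
    have t5 := mul_le_mul_of_nonneg_left
      (norm_add_le (a0 * (D 1 s + D (-1) s)) (a1 * (D I s + D (-I) s)))
      (show 0 ≤ 2 * s by positivity)
    have t6 := mul_le_mul_of_nonneg_left (t5.trans ((le_of_eq (by ring)).trans
      (add_le_add t0 t1))) Real.two_pi_pos.le
    rw [div_mul_eq_mul_div, le_div_iff₀' Real.two_pi_pos]
    refine le_of_mul_le_mul_left ?_ (show 0 < 2 * s by positivity)
    linarith
  have s4 : ContinuousWithinAt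
      (fun r => 2 * π * ‖a0 * (E 1 r + E (-1) r) + a1 * (E I r + E (-I) r)‖) (Ioo 0 1) 1 :=
    ((continuousOn_const.mul (((continuousOn_const.mul ((cE 1 norm_one).add (cE _ norm_m1))).add
      (continuousOn_const.mul ((cE I Complex.norm_I).add (cE _ norm_mI)))).norm))
        1 (right_mem_Icc.2 zero_le_one)).mono Ioo_subset_Icc_self
  have := right_nhdsWithin_Ioo_neBot (zero_lt_one (α := ℝ))
  simpa [hE] using le_of_tendsto s4 (eventually_nhdsWithin_of_forall s3)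

end Pool.Agent.FS.Rhombi
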