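import Pool.Agent.Lib.MP_7c5c90_an.TR.Lower

/-!
Four symmetric points inside a circle: the estimate for even and odd parts.
-/

set_option autoImplicit false

open MeasureTheory Set Complex Filter Topology Metric
open scoped Real ComplexConjugate

namespace Pool.Agent.FS.Rhombi

open Pool.Agent.Lib.MP_7c5c90_an Pool.Agent.Lib.MP_7c5c90_an.RP Pool.Agent.Lib.MP_7c5c90_an.TR

theorem norm_m1 : ‖(-1 : ℂ)‖ = 1 := by simp

theorem norm_mI : ‖(-I : ℂ)‖ = 1 := by simp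

/-- The estimate for an even function. -/
theorem two {G : ℂ → ℂ} (hG : DifferentiableOn ℂ G (ball 0 1)) (hev : ∀ z, z ≠ 0 → G (-z) = G z)
    {s : ℝ} (h0 : 0 < s) (h1 : s < 1) :
    2 * π * ((1 - s ^ 8) * (‖G (1 * (s ^ 2 : ℝ))‖ ^ 2 + ‖G (I * (s ^ 2 : ℝ))‖ ^ 2)) ≤
      2 * ∫ t in (-π)..π, ‖G (s * e t)‖ ^ 2 := by
  set x0 := G (1 * (s ^ 2 : ℝ)) with hx0
  set x1 := G (I * (s ^ 2 : ℝ)) with hx1
  set κ : ℂ → ℂ := fun z => conj x0 / 2 * (1 - 1 * conj z)⁻¹ + conj x0 / 2 * (1 - -1 * conj z)⁻¹ +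
    conj x1 / 2 * (1 - I * conj z)⁻¹ + conj x1 / 2 * (1 - -I * conj z)⁻¹ with hκ
  have k0 := cont_ker norm_one h0.le h1
  have k1 := cont_ker norm_m1 h0.le h1
  have k2 := cont_ker Complex.norm_I h0.le h1
  have k3 := cont_ker norm_mI h0.le h1
  have hκc : Continuous fun t => κ (s * e t) :=
    (((continuous_const.mul k0).add (continuous_const.mul k1)).add (continuous_const.mul k2)).add
      (continuous_const.mul k3)
  have idt : ∀ F : ℂ → ℂ, DifferentiableOn ℂ F (ball 0 1) →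
      ∫ t in (-π)..π, F (s * e t) * κ (s * e t) =
      2 * π * (conj x0 / 2 * F (1 * (s ^ 2 : ℝ)) + conj x0 / 2 * F (-1 * (s ^ 2 : ℝ)) +
        conj x1 / 2 * F (I * (s ^ 2 : ℝ)) + conj x1 / 2 * F (-I * (s ^ 2 : ℝ))) := fun F hF => by
    have hc := cont_circle hF.continuousOn h0.le h1
    have i0 := ((hc.mul k0).intervalIntegrable (μ := volume) (-π) π).const_mul (conj x0 / 2)
    have i1 := ((hc.mul k1).intervalIntegrable (μ := volume) (-π) π).const_mul (conj x0 / 2)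
    have i2 := ((hc.mul k2).intervalIntegrable (μ := volume) (-π) π).const_mul (conj x1 / 2)
    have i3 := ((hc.mul k3).intervalIntegrable (μ := volume) (-π) π).const_mul (conj x1 / 2)
    have e1 := intervalIntegral.integral_add ((i0.add i1).add i2) i3
    rw [intervalIntegral.integral_add (i0.add i1) i2, intervalIntegral.integral_add i0 i1] at e1
    simp only [intervalIntegral.integral_const_mul, Pi.mul_apply, cauchy hF h0 h1 norm_one,
      cauchy hF h0 h1 norm_m1, cauchy hF h0 h1 Complex.norm_I, cauchy hF h0 h1 norm_mI] at e1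
    refine Eq.trans ?_ (e1.trans (by ring))
    congr 1
    ext t
    simp only [hκ]
    ring
  set S := ‖x0‖ ^ 2 + ‖x1‖ ^ 2 with hS
  have hS0 : 0 ≤ S := by positivity
  have ha0 : 0 < s ^ 2 := by positivity
  have ha1 : s ^ 2 < 1 := pow_lt_one₀ h0.le h1 two_ne_zero
  have h6 : 0 < 1 - s ^ 8 := sub_pos.2 (pow_lt_one₀ h0.le h1 (by norm_num))
  have d : ∀ v : ℂ, ‖v‖ = 1 → DifferentiableOn ℂ (fun z : ℂ => (1 - v * z)⁻¹) (ball 0 1) :=
    fun v hv => DifferentiableOn.inv (by fun_prop) fun z hz => ker_ne hv (mem_ball_zero_iff.1 hz)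
  have e1 := idt (fun z => x0 / 2 * (1 - 1 * z)⁻¹ + x0 / 2 * (1 - -1 * z)⁻¹ +
      x1 / 2 * (1 - -I * z)⁻¹ + x1 / 2 * (1 - I * z)⁻¹)
    (((((d _ norm_one).const_mul _).add ((d _ norm_m1).const_mul _)).add
      ((d _ norm_mI).const_mul _)).add ((d _ Complex.norm_I).const_mul _))
  have e2 : ∀ z : ℂ, (x0 / 2 * (1 - 1 * z)⁻¹ + x0 / 2 * (1 - -1 * z)⁻¹ +
      x1 / 2 * (1 - -I * z)⁻¹ + x1 / 2 * (1 - I * z)⁻¹) * κ z = (‖κ z‖ ^ 2 : ℝ) := fun z => by
    rw [ofReal_sq]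
    congr 1
    simp only [hκ, map_add, map_mul, map_inv₀, map_sub, map_one, Complex.conj_conj, map_div₀,
      map_neg, conj_I, neg_neg, map_ofNat]
  have g : ∀ v : ℂ, v ^ 4 = 1 → ‖v‖ = 1 → (1 - v * (s ^ 2 : ℝ))⁻¹ =
      (1 + v * s ^ 2 + v ^ 2 * s ^ 4 + v ^ 3 * s ^ 6) / (1 - s ^ 8 : ℝ) := fun v hv hv' => by
    have a1 : 1 - v * (s ^ 2 : ℝ) ≠ 0 :=
      ker_ne hv' (by rwa [Complex.norm_real, Real.norm_of_nonneg ha0.le])
    rw [eq_div_iff (ofReal_ne_zero.2 h6.ne'), inv_mul_eq_iff_eq_mul₀ a1]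
    push_cast
    linear_combination (s : ℂ) ^ 8 * hv
  have g0 := g 1 (by simp) norm_one
  have g1 := g (-1) (by norm_num) norm_m1
  have g2 := g I I_pow_four Complex.norm_I
  have g3 := g (-I) (by rw [show (-I) ^ 4 = I ^ 4 by ring, I_pow_four]) norm_mI
  have e3 : (1 - s ^ 8) * ∫ t in (-π)..π, ‖κ (s * e t)‖ ^ 2 = 2 * π * (‖x0 + x1‖ ^ 2 +
      s ^ 4 * ‖x0 - x1‖ ^ 2) := by
    simp only [e2, intervalIntegral.integral_ofReal] at e1
    simp only [← mul_assoc, one_mul, neg_mul, mul_neg, neg_neg, I_mul_I] at e1 g0 g1 g2 g3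
    rw [g0, g1, g2, g3] at e1
    apply ofReal_injective
    have h6' : ((1 - s ^ 8 : ℝ) : ℂ) ≠ 0 := ofReal_ne_zero.2 h6.ne'
    rw [ofReal_mul, e1]
    simp only [ofReal_mul, ofReal_add, ofReal_sq, map_add, map_sub]
    field_simp
    push_cast
    ring_nf
    simp only [I_sq]
    ring
  have e4 : ‖x0 + x1‖ ^ 2 + ‖x0 - x1‖ ^ 2 = 2 * S := by
    have := parallelogram_law_with_norm ℝ x0 x1
    rw [hS]
    nlinarith
  have e5 : (1 - s ^ 8) * ∫ t in (-π)..π, ‖κ (s * e t)‖ ^ 2 ≤ 2 * π * (2 * S) := by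
    rw [e3, ← e4]
    refine mul_le_mul_of_nonneg_left (add_le_add le_rfl ?_) Real.two_pi_pos.le
    exact mul_le_of_le_one_left (sq_nonneg _) (pow_le_one₀ h0.le h1.le)
  have hx : ((s ^ 2 : ℝ) : ℂ) ≠ 0 := ofReal_ne_zero.2 ha0.ne'
  have e6 : ∫ t in (-π)..π, G (s * e t) * κ (s * e t) = (2 * π * S : ℝ) := by
    rw [idt G hG, neg_mul, neg_mul, hev _ (mul_ne_zero one_ne_zero hx),
      hev _ (mul_ne_zero I_ne_zero hx), ← hx0, ← hx1]
    simp only [hS, ofReal_mul, ofReal_add, ofReal_sq]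
    push_cast
    ring
  have hc := cont_circle hG.continuousOn h0.le h1
  have i1 := ((hc.norm.pow 2).intervalIntegrable (μ := volume) (-π) π).const_mul (2 / (1 - s ^ 8) / 2)
  have i2 := ((hκc.norm.pow 2).intervalIntegrable (μ := volume) (-π) π).const_mul ((1 - s ^ 8) / 4)
  have e7 := intervalIntegral.norm_integral_le_of_norm_le (μ := volume) (a := -π) (b := π)
    (f := fun t => G (s * e t) * κ (s * e t)) (by linarith [Real.pi_pos])
    (Eventually.of_forall fun t _ => ?_) (i1.add i2)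
  · rw [e6, Complex.norm_real, Real.norm_of_nonneg (by positivity),
      intervalIntegral.integral_add i1 i2, intervalIntegral.integral_const_mul,
      intervalIntegral.integral_const_mul] at e7
    simp only [Pi.pow_apply] at e7
    have e8 : 2 * π * S ≤ 2 / (1 - s ^ 8) * ∫ t in (-π)..π, ‖G (s * e t)‖ ^ 2 := by linarith
    rw [div_mul_eq_mul_div, le_div_iff₀ h6] at e8
    linarith
  · simp only [Pi.pow_apply, norm_mul]
    generalize ‖G (s * e t)‖ = p
    generalize ‖κ (s * e t)‖ = q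
    generalize 1 - s ^ 8 = m at h6
    rw [← sub_nonneg, show 2 / m / 2 * p ^ 2 + m / 4 * q ^ 2 - p * q = (2 * p - m * q) ^ 2 / (4 * m) by
      field_simp; ring]
    positivity

theorem two_k {φ G : ℂ → ℂ} (k : ℕ) (hG : DifferentiableOn ℂ G (ball 0 1))
    (h : ∀ z, φ z = z ^ k * G z) (hp : ∀ z, φ (-z) = (-1) ^ k * φ z) {s : ℝ} (h0 : 0 < s)
    (h1 : s < 1) :
    2 * π * ((1 - s ^ 8) * (‖φ (1 * (s ^ 2 : ℝ))‖ ^ 2 + ‖φ (I * (s ^ 2 : ℝ))‖ ^ 2)) ≤
      (s ^ k) ^ 2 * (2 * ∫ t in (-π)..π, ‖φ (s * e t)‖ ^ 2) := by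
  have h2 := two hG (fun z hz => by
    have := hp z
    rw [h, h, neg_pow, mul_assoc] at this
    exact mul_left_cancel₀ (pow_ne_zero k hz)
      (mul_left_cancel₀ (pow_ne_zero k (by norm_num)) this)) h0 h1
  have e1 : ∀ z, ‖φ z‖ = ‖z‖ ^ k * ‖G z‖ := fun z => by rw [h, norm_mul, norm_pow]
  have e2 : ∀ v : ℂ, ‖v‖ = 1 → ‖v * (s ^ 2 : ℝ)‖ ^ k = (s ^ k) ^ 2 := fun v hv => by
    rw [norm_mul, hv, one_mul, Complex.norm_real, Real.norm_of_nonneg (sq_nonneg s), ← pow_mul,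
      ← pow_mul, mul_comm]
  simp only [e1, e2 _ norm_one, e2 _ Complex.norm_I, norm_mul_e h0.le, mul_pow,
    intervalIntegral.integral_const_mul]
  nlinarith [mul_le_mul_of_nonneg_left h2 (show 0 ≤ ((s ^ k) ^ 2) ^ 2 by positivity)]

theorem dslope_eq {F : ℂ → ℂ} (hF0 : F 0 = 0) (z : ℂ) : F z = z * dslope F 0 z := by
  have := sub_smul_dslope F 0 z
  rw [sub_zero, hF0, sub_zero, smul_eq_mul] at this
  exact this.symm

theorem diff_neg {f : ℂ → ℂ} (hf : DifferentiableOn ℂ f (ball 0 1)) :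
    DifferentiableOn ℂ (fun z => f (-z)) (ball 0 1) :=
  hf.comp differentiable_neg.differentiableOn fun z hz => by simpa using hz

theorem split {f : ℂ → ℂ} (hf : DifferentiableOn ℂ f (ball 0 1)) {s : ℝ} (h0 : 0 < s) (h1 : s < 1) :
    (∫ t in (-π)..π, ‖(f (s * e t) + f (-(s * e t))) / 2‖ ^ 2) +
      ∫ t in (-π)..π, ‖(f (s * e t) - f (-(s * e t))) / 2‖ ^ 2 =
        ∫ t in (-π)..π, ‖f (s * e t)‖ ^ 2 := by
  have c1 := cont_circle hf.continuousOn h0.le h1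
  have c2 := cont_circle (diff_neg hf).continuousOn h0.le h1
  have hp : Function.Periodic (fun t => ‖f (s * e t)‖ ^ 2) (2 * π) := fun t => by
    have : e (2 * π) = 1 := by simp [e]
    simp only [e_add, this, mul_one]
  have h2 := hp.intervalIntegral_add_eq 0 (-π)
  rw [zero_add, show -π + 2 * π = π by ring] at h2
  have h3 := intervalIntegral.integral_comp_add_right (a := -π) (b := π)
    (fun t => ‖f (s * e t)‖ ^ 2) π
  rw [neg_add_cancel, ← two_mul, h2] at h3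
  simp only [e_add, e_pi, mul_neg, mul_one] at h3
  have i1 := (c1.norm.pow 2).intervalIntegrable (μ := volume) (-π) π
  have i2 := (c2.norm.pow 2).intervalIntegrable (μ := volume) (-π) π
  have h6 := intervalIntegral.integral_add
    ((((c1.add c2).div_const 2).norm.pow 2).intervalIntegrable (μ := volume) (-π) π)
    ((((c1.sub c2).div_const 2).norm.pow 2).intervalIntegrable (μ := volume) (-π) π)
  simp only [Pi.pow_apply, Pi.add_apply, Pi.sub_apply] at h6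
  rw [← h6]
  have h4 := intervalIntegral.integral_add i1 i2
  simp only [Pi.pow_apply] at h4
  rw [h3] at h4
  have h5 : ∀ x y : ℂ, ‖(x + y) / 2‖ ^ 2 + ‖(x - y) / 2‖ ^ 2 = 1 / 2 * (‖x‖ ^ 2 + ‖y‖ ^ 2) :=
    fun x y => by
      have := parallelogram_law_with_norm ℝ x y
      rw [norm_div, norm_div, Complex.norm_ofNat]
      nlinarith
  simp only [h5, intervalIntegral.integral_const_mul, h4]
  ring

/-- The bilinear estimate on one circle. -/
theorem pair {f g : ℂ → ℂ} (hf : DifferentiableOn ℂ f (ball 0 1))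
    (hg : DifferentiableOn ℂ g (ball 0 1)) (hf0 : f 0 = 0) {s : ℝ} (h0 : 0 < s) (h1 : s < 1) :
    2 * π * ((1 - s ^ 8) *
      (‖f (1 * (s ^ 2 : ℝ)) * g (1 * (s ^ 2 : ℝ)) + f (-1 * (s ^ 2 : ℝ)) * g (-1 * (s ^ 2 : ℝ))‖ +
        ‖f (I * (s ^ 2 : ℝ)) * g (I * (s ^ 2 : ℝ)) + f (-I * (s ^ 2 : ℝ)) * g (-I * (s ^ 2 : ℝ))‖)) ≤
      2 * s ^ 2 * ((∫ t in (-π)..π, ‖f (s * e t)‖ ^ 2) + ∫ t in (-π)..π, ‖g (s * e t)‖ ^ 2) := by
  have hb : ball (0 : ℂ) 1 ∈ 𝓝 (0 : ℂ) := ball_mem_nhds 0 one_pos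
  have odd : ∀ {φ : ℂ → ℂ}, DifferentiableOn ℂ φ (ball 0 1) → _ := fun {φ} hφ =>
    two_k (φ := fun z => (φ z - φ (-z)) / 2) 1
      ((Complex.differentiableOn_dslope hb).2 ((hφ.sub (diff_neg hφ)).div_const 2))
      (fun z => by rw [pow_one]; exact dslope_eq (F := fun z => (φ z - φ (-z)) / 2) (by simp) z)
      (fun z => by rw [neg_neg]; ring) h0 h1
  have a1 := odd hf
  have a2 := odd hg
  have a3 := two_k (φ := fun z => (g z + g (-z)) / 2) 0 ((hg.add (diff_neg hg)).div_const 2)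
    (fun z => by simp) (fun z => by rw [neg_neg]; ring) h0 h1
  have dF : DifferentiableOn ℂ (fun z => (f z + f (-z)) / 2) (ball 0 1) :=
    (hf.add (diff_neg hf)).div_const 2
  have a4 := two_k (φ := fun z => (f z + f (-z)) / 2) 2
    ((Complex.differentiableOn_dslope hb).2 ((Complex.differentiableOn_dslope hb).2 dF))
    (fun z => by
      have b1 := dslope_eq (F := fun z => (f z + f (-z)) / 2) (by simp [hf0]) z
      have b2 := dslope_eq (F := dslope (fun z => (f z + f (-z)) / 2) 0) (by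
        rw [dslope_same]
        have c1 := (hf.differentiableAt hb).hasDerivAt
        have c2 := (show HasDerivAt f (deriv f 0) (-0) by rwa [neg_zero]).comp (0 : ℂ)
          (hasDerivAt_neg (0 : ℂ))
        have c3 := ((c1.add c2).div_const 2).deriv
        simpa using c3) z
      rw [b2] at b1
      rw [b1]
      ring) (fun z => by rw [neg_neg]; ring) h0 h1
  have s1 := split hf h0 h1
  have s2 := split hg h0 h1
  rw [← s1, ← s2]
  have h8 : 0 ≤ 1 - s ^ 8 := sub_nonneg.2 (pow_le_one₀ h0.le h1.le)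
  have pt : ∀ y : ℂ, s ^ 2 * ‖f y * g y + f (-y) * g (-y)‖ ≤ ‖(f y + f (-y)) / 2‖ ^ 2 +
      s ^ 4 * ‖(g y + g (-y)) / 2‖ ^ 2 +
        s ^ 2 * (‖(f y - f (-y)) / 2‖ ^ 2 + ‖(g y - g (-y)) / 2‖ ^ 2) := fun y => by
    rw [show f y * g y + f (-y) * g (-y) = 2 * ((f y + f (-y)) / 2 * ((g y + g (-y)) / 2)) +
      2 * ((f y - f (-y)) / 2 * ((g y - g (-y)) / 2)) by ring]
    generalize (f y + f (-y)) / 2 = A
    generalize (g y + g (-y)) / 2 = B
    generalize (f y - f (-y)) / 2 = C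
    generalize (g y - g (-y)) / 2 = D
    have := mul_le_mul_of_nonneg_left (norm_add_le (2 * (A * B)) (2 * (C * D))) (sq_nonneg s)
    simp only [norm_mul, Complex.norm_ofNat] at this
    nlinarith [sq_nonneg (‖A‖ - s ^ 2 * ‖B‖), mul_nonneg (sq_nonneg s) (sq_nonneg (‖C‖ - ‖D‖))]
  have p1 := mul_le_mul_of_nonneg_left (add_le_add (pt (1 * (s ^ 2 : ℝ))) (pt (I * (s ^ 2 : ℝ))))
    (mul_nonneg Real.two_pi_pos.le h8)
  simp only [neg_mul]
  refine le_of_mul_le_mul_left ?_ (show 0 < s ^ 2 by positivity)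
  have q1 := mul_le_mul_of_nonneg_left a1 (sq_nonneg s)
  have q2 := mul_le_mul_of_nonneg_left a2 (sq_nonneg s)
  have q3 := mul_le_mul_of_nonneg_left a3 (show 0 ≤ s ^ 4 by positivity)
  simp only [pow_one, pow_zero, one_pow, one_mul] at q1 q2 q3 a4 p1 ⊢
  nlinarith

end Pool.Agent.FS.Rhombi
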