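import Pool.Agent.FS.Rhombi.Upper

/-!
The lower bound at a corner of a rhombus, and the exact constant.
-/

set_option autoImplicit false

open MeasureTheory Set Complex Filter Topology Metric
open scoped Real ComplexConjugate

namespace Pool.Agent.FS.Rhombi

open Pool.Agent.Lib.MP_7c5c90_an Pool.Agent.Lib.MP_7c5c90_an.RP Pool.Agent.Lib.MP_7c5c90_an.TR

variable {θ : ℝ}

theorem ptests (h0 : 0 < θ) (h1 : θ < π / 2) {t : ℝ} (ht : 0 < t) :
    ∃ B C D : ℝ, ∀ L : ℝ, 0 ≤ L → ∃ w : ℂ → ℂ, DifferentiableOn ℂ w (Pa (ct (2 * θ)) t 0 1) ∧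
      IntegrableOn (fun z => (w z).re) (Pa (ct (2 * θ)) t 0 1) ∧
      IntegrableOn (fun z => (w z).re ^ 2) (Pa (ct (2 * θ)) t 0 1) ∧
      IntegrableOn (fun z => (w z).im ^ 2) (Pa (ct (2 * θ)) t 0 1) ∧
      ∫ z in Pa (ct (2 * θ)) t 0 1, ((w z).re ^ 2 + (w z).im ^ 2) ≤ 2 * θ * (B + L) ∧
      Real.sin (2 * θ) * L - C ≤ ∫ z in Pa (ct (2 * θ)) t 0 1, ((w z).re ^ 2 - (w z).im ^ 2) ∧
      |∫ z in Pa (ct (2 * θ)) t 0 1, (w z).re| ≤ D := by
  have hs := Real.sin_pos_of_pos_of_lt_pi (x := 2 * θ) (by linarith) (by linarith)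
  obtain ⟨R, hR0, hR⟩ :=
    (isCompact_cPa (c := ct (2 * θ)) (h := t) (p := 0) (ρ := 1)).isBounded.exists_pos_norm_le
  set g : ℝ → ℂ := fun δ => Real.sin (2 * θ) * e (-(2 * θ)) * (-e (2 * θ) *
      Complex.log (e (-θ) * (0 + (1 : ℝ) + (1 : ℝ) * (t * (ct (2 * θ) + I))) + δ)) +
    -(Real.sin (2 * θ) * e (-(2 * θ))) *
      (-e (2 * θ) * Complex.log (e (-θ) * (0 + (1 : ℝ) * (t * (ct (2 * θ) + I))) + δ) +
        -e (2 * θ) * Complex.log (e (-θ) * (0 + (1 : ℝ)) + δ)) with hg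
  have hgc : ContinuousOn g (Icc 0 1) := by
    refine (continuousOn_const.mul (continuousOn_const.mul (ContinuousOn.clog (by fun_prop)
      fun x hx => Or.inl ?_))).add (continuousOn_const.mul ((continuousOn_const.mul
        (ContinuousOn.clog (by fun_prop) fun x hx => Or.inl ?_)).add (continuousOn_const.mul
        (ContinuousOn.clog (by fun_prop) fun x hx => Or.inl ?_))))
    · obtain ⟨a1, a2, a3, -⟩ := re_rot h0 h1 (0 + (1 : ℝ) + (1 : ℝ) * (t * (ct (2 * θ) + I)))
      have := hx.1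
      rw [add_re, a3]
      simp only [zero_add, re_ofReal_mul, im_ofReal_mul, add_re, add_im, ofReal_re, ofReal_im, I_re,
        I_im, add_zero, mul_one, one_mul, mul_comm t (ct _), add_sub_cancel_right]
      positivity
    · obtain ⟨a1, a2, a3, -⟩ := re_rot h0 h1 (0 + (1 : ℝ) * (t * (ct (2 * θ) + I)))
      have := hx.1
      rw [add_re, a3]
      simp only [zero_add, re_ofReal_mul, im_ofReal_mul, add_re, add_im, ofReal_re, ofReal_im, I_re,
        I_im, add_zero, mul_one, one_mul, mul_comm t (ct _), sub_self, mul_zero]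
      positivity
    · obtain ⟨a1, a2, a3, -⟩ := re_rot h0 h1 (0 + (1 : ℝ))
      have := hx.1
      rw [add_re, a3]
      simp only [zero_add, ofReal_re, ofReal_im, mul_zero, sub_zero, zero_div]
      positivity
  obtain ⟨C, hC⟩ := isCompact_Icc.exists_bound_of_continuousOn hgc
  refine ⟨Real.log (R + 2), C, 2 * θ * (R + 2), fun L hL => ?_⟩
  obtain ⟨δ, hδ, hδ1, rfl⟩ : ∃ δ : ℝ, 0 < δ ∧ δ ≤ 1 ∧ L = -Real.log δ :=
    ⟨Real.exp (-L), Real.exp_pos _, Real.exp_le_one_iff.2 (neg_nonpos.2 hL), by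
      rw [Real.log_exp, neg_neg]⟩
  have hδR : δ ≤ R + 2 := by linarith
  have hre : ∀ z ∈ cPa (ct (2 * θ)) t 0 1, 0 < (e (-θ) * z + δ).re := fun z hz =>
    re_pos (d := -ct (2 * θ)) h0 h1 hδ ⟨hz.1, hz.2.2.1, by linarith [hz.2.2.2]⟩
  have hne : ∀ z ∈ cPa (ct (2 * θ)) t 0 1, e (-θ) * z + δ ≠ 0 := fun z hz h => by
    simpa [h] using hre z hz
  have hB : ∀ z ∈ Pa (ct (2 * θ)) t 0 1, e (-θ) * z + δ ∈ Box δ (R + 2) θ := fun z hz =>
    mem_Box (d := -ct (2 * θ)) h0 h1 hδ ⟨hz.1, hz.2.2.1, by linarith [hz.2.2.2]⟩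
      (by linarith [hR z (Pa_subset hz)])
  have hw : DifferentiableOn ℂ (fun z => (e (-θ) * z + δ)⁻¹) (cPa (ct (2 * θ)) t 0 1) :=
    DifferentiableOn.inv (by fun_prop) hne
  have hc := hw.continuousOn
  refine ⟨fun z => (e (-θ) * z + δ)⁻¹, hw.mono Pa_subset,
    integrableOn_Pa (continuous_re.comp_continuousOn hc),
    integrableOn_Pa ((continuous_re.comp_continuousOn hc).pow 2),
    integrableOn_Pa ((continuous_im.comp_continuousOn hc).pow 2), ?_, ?_, ?_⟩
  · have := polar_le h0 h1 hδ hδR hB (φ := fun r => r⁻¹ ^ 2) (fun r => sq_nonneg _)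
      ((continuousOn_id.inv₀ fun r hr => (hδ.trans_le hr.1).ne').pow 2)
    rw [intervalIntegral.integral_congr (g := fun r => r⁻¹) (fun r hr => by
        rw [uIcc_of_le hδR] at hr
        have := (hδ.trans_le hr.1).ne'
        simp only
        field_simp), integral_inv_of_pos hδ (by linarith), Real.log_div (by positivity) hδ.ne',
      sub_eq_add_neg] at this
    refine le_trans (le_of_eq ?_) this
    congr 1
    ext z
    rw [← norm_inv, ← Complex.normSq_eq_norm_sq, Complex.normSq_apply]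
    ring
  · have e1 := reCLM.integral_comp_comm (integrableOn_Pa (hc.pow 2))
    have e2 : ∀ z : ℂ, z.re ^ 2 - z.im ^ 2 = (z ^ 2).re := fun z => by simp [sq]
    have e0 : e θ * e (-θ) = 1 := by rw [← e_add, add_neg_cancel, e_zero]
    have dy : ∀ z, HasDerivAt (fun z => e (-θ) * z + δ) (e (-θ)) z := fun z => by
      simpa using ((hasDerivAt_id z).const_mul (e (-θ))).add_const (δ : ℂ)
    have e3 := pdavis ht one_pos (f := fun z => (e (-θ) * z + δ)⁻¹ ^ 2)
      (H1 := fun z => -e θ * (e (-θ) * z + δ)⁻¹)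
      (H := fun z => -e (2 * θ) * Complex.log (e (-θ) * z + δ)) (hc.pow 2)
      (fun z hz => (((dy z).inv (hne z hz)).const_mul _).congr_deriv (by
        rw [div_eq_mul_inv, ← inv_pow]
        linear_combination (e (-θ) * z + δ)⁻¹ ^ 2 * e0))
      (fun z hz => (((dy z).clog (Or.inl (hre z hz))).const_mul _).congr_deriv (by
        rw [div_eq_mul_inv, two_mul, e_add]
        linear_combination (-e θ * (e (-θ) * z + δ)⁻¹) * e0))
      (ct_coef hs).1
    have e4 : e (-(2 * θ)) * e (2 * θ) = 1 := by rw [← e_add, neg_add_cancel, e_zero]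
    simp only [reCLM_apply, Pi.pow_apply] at e1
    have e5 : ∫ z in Pa (ct (2 * θ)) t 0 1, (e (-θ) * z + δ)⁻¹ ^ 2 =
        (Real.sin (2 * θ) * -Real.log δ : ℝ) + g δ := by
      rw [e3, mul_zero, zero_add (δ : ℂ), ← Complex.ofReal_log hδ.le, ofReal_mul, ofReal_neg]
      simp only [hg]
      linear_combination (-(Real.sin (2 * θ) : ℂ) * (Real.log δ : ℝ)) * e4
    simp only [e2, e1, e5]
    rw [add_re, ofReal_re]
    linarith [(abs_le.1 ((abs_re_le_norm (g δ)).trans (hC δ ⟨hδ.le, hδ1⟩))).1]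
  · have := polar_le h0 h1 hδ hδR hB (φ := fun r => |r⁻¹|) (fun r => abs_nonneg _)
      (continuousOn_id.inv₀ fun r hr => (hδ.trans_le hr.1).ne').abs
    rw [intervalIntegral.integral_congr (g := fun _ => 1) (fun r hr => by
        rw [uIcc_of_le hδR] at hr
        have := hδ.trans_le hr.1
        simp only
        rw [abs_of_pos (inv_pos.2 this), mul_inv_cancel₀ this.ne'])] at this
    simp only [← norm_inv, abs_norm, intervalIntegral.integral_const, smul_eq_mul, mul_one] at this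
    refine (norm_integral_le_of_norm_le (f := fun z => ((e (-θ) * z + δ)⁻¹).re)
      (integrableOn_Pa hc).norm (Eventually.of_forall fun z => abs_re_le_norm _)).trans
        (this.trans ?_)
    exact mul_le_mul_of_nonneg_left (by linarith) (by linarith)

theorem rnormalised {A : ℝ} (hA : 0 < A) (hB : A ≤ π / 2) :
    IsLeast (Adm (Pa (ct A) (Real.sin A) 0 1)) ((A + Real.sin A) / (A - Real.sin A)) := by
  have hp := Real.pi_pos
  obtain ⟨a, rfl⟩ : ∃ a, A = π * a := ⟨A / π, by field_simp⟩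
  have ha := pos_of_mul_pos_left' hA hp
  have hb : a ≤ 1 - a := le_of_mul_le_mul_left (by linarith) hp
  have h : An a (1 - a) := ⟨ha, ha.trans_le hb, by ring⟩
  obtain ⟨z0, hz, hk⟩ := rkey h hb
  have hV : volume (Pa (ct (π * a)) (Real.sin (π * a)) 0 1) ≠ ⊤ :=
    ((measure_mono Pa_subset).trans_lt isCompact_cPa.measure_lt_top).ne
  refine ⟨upper_of isOpen_Pa.measurableSet hV h.sin_pos.le (Real.sin_lt hA) hk, ?_⟩
  have e : π * a = 2 * (π * a / 2) := by ring
  obtain ⟨B, C, D, hT⟩ := ptests (θ := π * a / 2) (by linarith) (by linarith) h.sin_pos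
  rw [← e] at hT
  exact lower_of hV (isOpen_Pa.measure_ne_zero volume ⟨z0, hz⟩) h.sin_pos (Real.sin_lt hA) hT

end Pool.Agent.FS.Rhombi
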