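import Pool.Agent.Lib.MP_7c5c90_an.TR.Lower

/-!
The area integral of a holomorphic function over a parallelogram.
-/

set_option autoImplicit false

open MeasureTheory Set Complex Filter Topology Metric
open scoped Real ComplexConjugate

namespace Pool.Agent.FS.Rhombi

open Pool.Agent.Lib.MP_7c5c90_an Pool.Agent.Lib.MP_7c5c90_an.RP Pool.Agent.Lib.MP_7c5c90_an.TR

variable {c h ρ : ℝ} {p : ℂ}

/-- The open parallelogram with base from `p` to `p + ρ`, height `ρ * h` and slope `c`. -/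
def Pa (c h : ℝ) (p : ℂ) (ρ : ℝ) : Set ℂ :=
  {z | 0 < (z - p).im ∧ (z - p).im < ρ * h ∧ c * (z - p).im < (z - p).re ∧
    (z - p).re < ρ + c * (z - p).im}

/-- The closed parallelogram. -/
def cPa (c h : ℝ) (p : ℂ) (ρ : ℝ) : Set ℂ :=
  {z | 0 ≤ (z - p).im ∧ (z - p).im ≤ ρ * h ∧ c * (z - p).im ≤ (z - p).re ∧
    (z - p).re ≤ ρ + c * (z - p).im}

theorem Pa_subset : Pa c h p ρ ⊆ cPa c h p ρ :=
  fun _ hz => ⟨hz.1.le, hz.2.1.le, hz.2.2.1.le, hz.2.2.2.le⟩

theorem isOpen_Pa : IsOpen (Pa c h p ρ) :=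
  (isOpen_lt (f := fun _ => 0) (g := fun z : ℂ => (z - p).im) (by fun_prop) (by fun_prop)).inter
    ((isOpen_lt (f := fun z : ℂ => (z - p).im) (g := fun _ => ρ * h) (by fun_prop)
      (by fun_prop)).inter
    ((isOpen_lt (f := fun z : ℂ => c * (z - p).im) (g := fun z : ℂ => (z - p).re) (by fun_prop)
      (by fun_prop)).inter (isOpen_lt (f := fun z : ℂ => (z - p).re)
        (g := fun z : ℂ => ρ + c * (z - p).im) (by fun_prop) (by fun_prop))))

theorem convex_Pa : Convex ℝ (Pa c h 0 1) := by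
  intro x hx y hy s t hs ht hst
  simp only [Pa, mem_ofPred_eq, sub_zero, add_im, add_re, smul_im, smul_re, smul_eq_mul,
    one_mul] at *
  have key : ∀ X Y : ℝ, 0 < X → 0 < Y → 0 < s * X + t * Y := fun X Y hX hY => by
    rcases hs.eq_or_lt with h | h
    · rw [← h] at hst ⊢
      rw [show t = 1 by linarith]
      linarith
    · exact add_pos_of_pos_of_nonneg (mul_pos h hX) (mul_nonneg ht hY.le)
  refine ⟨key _ _ hx.1 hy.1, ?_, ?_, ?_⟩
  · have := key _ _ (sub_pos.2 hx.2.1) (sub_pos.2 hy.2.1)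
    rw [show h = (s + t) * h by rw [hst, one_mul]]
    linarith
  · linarith [key _ _ (sub_pos.2 hx.2.2.1) (sub_pos.2 hy.2.2.1)]
  · linarith [key _ _ (sub_pos.2 hx.2.2.2) (sub_pos.2 hy.2.2.2)]

theorem isCompact_cPa : IsCompact (cPa c h p ρ) := by
  refine Metric.isCompact_of_isClosed_isBounded
    ((isClosed_le (f := fun _ => 0) (g := fun z : ℂ => (z - p).im) (by fun_prop) (by fun_prop)).inter
      ((isClosed_le (f := fun z : ℂ => (z - p).im) (g := fun _ => ρ * h) (by fun_prop)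
        (by fun_prop)).inter
      ((isClosed_le (f := fun z : ℂ => c * (z - p).im) (g := fun z : ℂ => (z - p).re) (by fun_prop)
        (by fun_prop)).inter (isClosed_le (f := fun z : ℂ => (z - p).re)
          (g := fun z : ℂ => ρ + c * (z - p).im) (by fun_prop) (by fun_prop)))))
    ((isBounded_closedBall (x := p) (r := |ρ| + (|c| + 1) * (ρ * h))).subset fun z hz => ?_)
  obtain ⟨h1, h4, h2, h3⟩ := hz
  rw [mem_closedBall_iff_norm]
  generalize z - p = w at *
  have h5 := norm_le_abs_re_add_abs_im w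
  have h6 : |w.re| ≤ |ρ| + |c| * w.im := by
    have := mul_le_mul_of_nonneg_right (neg_abs_le c) h1
    have := mul_le_mul_of_nonneg_right (le_abs_self c) h1
    rw [abs_le]
    constructor <;> linarith [le_abs_self ρ, abs_nonneg ρ]
  rw [abs_of_nonneg h1] at h5
  linarith [mul_le_mul_of_nonneg_left h4 (show 0 ≤ |c| + 1 by positivity)]

theorem integrableOn_Pa {E : Type} [NormedAddCommGroup E] {f : ℂ → E}
    (hf : ContinuousOn f (cPa c h p ρ)) : IntegrableOn f (Pa c h p ρ) :=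
  (hf.integrableOn_compact isCompact_cPa).mono_set Pa_subset

theorem pfubini (hh : 0 < h) (hρ : 0 < ρ) {f : ℂ → ℂ} (hf : IntegrableOn f (Pa c h p ρ)) :
    ∫ z in Pa c h p ρ, f z =
      ∫ y in (0 : ℝ)..(ρ * h), ∫ x in (c * y)..(ρ + c * y), f (p + y * I + x) := by
  have hmp := (measurePreserving_add_left volume p).comp volume_preserving_equiv_real_prod.symm
  have hme := (MeasurableEquiv.addLeft p).measurableEmbedding.comp
    (measurableEquivRealProd.symm).measurableEmbedding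
  change MeasurableEmbedding ((fun x => p + x) ∘ measurableEquivRealProd.symm) at hme
  generalize hg : (fun x => p + x) ∘ measurableEquivRealProd.symm = g at hmp hme
  have hg' : ∀ x y : ℝ, g (x, y) = p + y * I + x := fun x y => by
    rw [← hg, Function.comp_apply, measurableEquivRealProd_symm_apply, mk_eq_add_mul_I]
    ring
  have hm : MeasurableSet (g ⁻¹' Pa c h p ρ) := hme.measurable isOpen_Pa.measurableSet
  have hf' := (integrable_indicator_iff hm).2 ((hmp.integrableOn_comp_preimage hme).2 hf)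
  rw [← hmp.setIntegral_preimage_emb hme, ← integral_indicator hm]
  rw [Measure.volume_eq_prod] at hf' ⊢
  rw [show (fun q => f (g q)) = f ∘ g from rfl, integral_prod_symm _ hf',
    intervalIntegral.integral_of_le (mul_pos hρ hh).le, integral_Ioc_eq_integral_Ioo,
    ← integral_indicator measurableSet_Ioo]
  refine integral_congr_ae (Eventually.of_forall fun y => ?_)
  have hmem : ∀ x : ℝ, (x, y) ∈ g ⁻¹' Pa c h p ρ ↔
      0 < y ∧ y < ρ * h ∧ c * y < x ∧ x < ρ + c * y := fun x => by simp [Pa, hg', add_assoc]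
  by_cases hy : y ∈ Ioo 0 (ρ * h)
  · simp only [indicator_of_mem hy]
    rw [intervalIntegral.integral_of_le (by linarith), integral_Ioc_eq_integral_Ioo,
      ← integral_indicator measurableSet_Ioo]
    refine integral_congr_ae (Eventually.of_forall fun x => ?_)
    by_cases hx : x ∈ Ioo (c * y) (ρ + c * y)
    · simp only [indicator_of_mem hx, indicator_of_mem ((hmem x).2 ⟨hy.1, hy.2, hx.1, hx.2⟩),
        Function.comp_apply, hg']
    · simp only [indicator_of_notMem hx, indicator_of_notMem (fun h => hx ((hmem x).1 h).2.2)]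
  · have : ∀ x : ℝ, (x, y) ∉ g ⁻¹' Pa c h p ρ := fun x h' => by
      obtain ⟨k1, k2, -⟩ := (hmem x).1 h'
      exact hy ⟨k1, k2⟩
    simp only [indicator_of_notMem hy, indicator_of_notMem (this _), integral_zero]

/-- The area integral through a second primitive at the vertices. -/
theorem pdavis (hh : 0 < h) (hρ : 0 < ρ) {f H1 H : ℂ → ℂ}
    (hf : ContinuousOn f (cPa c h p ρ)) (h1 : ∀ z ∈ cPa c h p ρ, HasDerivAt H1 (f z) z)
    (h2 : ∀ z ∈ cPa c h p ρ, HasDerivAt H (H1 z) z) {a0 : ℂ} (k0 : a0 * (c + I) = 1) :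
    ∫ z in Pa c h p ρ, f z = a0 * (H (p + ρ + ρ * (h * (c + I))) + H p) +
      -a0 * (H (p + ρ * (h * (c + I))) + H (p + ρ)) := by
  have hh' := (mul_pos hρ hh).le
  have hmem : ∀ y ∈ uIcc 0 (ρ * h), ∀ x ∈ uIcc (c * y) (ρ + c * y),
      p + y * I + x * 1 ∈ cPa c h p ρ := fun y hy x hx => by
    rw [uIcc_of_le hh'] at hy
    rw [uIcc_of_le (by linarith)] at hx
    have e0 : p + y * I + x * 1 - p = ⟨x, y⟩ := by rw [mk_eq_add_mul_I]; ring
    simp only [cPa, mem_ofPred_eq, e0]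
    exact ⟨hy.1, hy.2, hx.1, hx.2⟩
  have e1 : ∀ y : ℝ, p + y * I + (c * y : ℝ) * 1 = p + y * (c + I) := fun y => by
    push_cast; ring
  have e2 : ∀ y : ℝ, p + y * I + (ρ + c * y : ℝ) * 1 = p + ρ + y * (c + I) := fun y => by
    push_cast; ring
  have m1 : ∀ y ∈ uIcc 0 (ρ * h), p + y * (c + I) ∈ cPa c h p ρ := fun y hy =>
    e1 y ▸ hmem y hy _ left_mem_uIcc
  have m2 : ∀ y ∈ uIcc 0 (ρ * h), p + ρ + y * (c + I) ∈ cPa c h p ρ := fun y hy =>
    e2 y ▸ hmem y hy _ right_mem_uIcc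
  have c1 : ContinuousOn H1 (cPa c h p ρ) := fun z hz => (h1 z hz).continuousAt.continuousWithinAt
  have inner : ∀ y ∈ uIcc 0 (ρ * h), ∫ x in (c * y)..(ρ + c * y), f (p + y * I + x) =
      H1 (p + ρ + y * (c + I)) - H1 (p + y * (c + I)) := fun y hy => by
    have := intervalIntegral.integral_eq_sub_of_hasDerivAt
      (f := fun x : ℝ => H1 (p + y * I + x * 1)) (f' := fun x : ℝ => f (p + y * I + x * 1))
      (fun x hx => (deriv_line (h1 _ (hmem y hy x hx))).congr_deriv (mul_one _))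
      (hf.comp (by fun_prop) (hmem y hy)).intervalIntegrable
    rw [e1, e2] at this
    simpa only [mul_one] using this
  rw [pfubini hh hρ (integrableOn_Pa hf), intervalIntegral.integral_congr inner,
    intervalIntegral.integral_eq_sub_of_hasDerivAt
      (f := fun y : ℝ => a0 * H (p + ρ + y * (c + I)) - a0 * H (p + y * (c + I)))
      (f' := fun y : ℝ => H1 (p + ρ + y * (c + I)) - H1 (p + y * (c + I)))
      (fun y hy => (((deriv_line (h2 _ (m2 y hy))).const_mul a0).sub
        ((deriv_line (h2 _ (m1 y hy))).const_mul a0)).congr_deriv (by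
          linear_combination H1 (p + ρ + y * (c + I)) * k0 - H1 (p + y * (c + I)) * k0))
      ((c1.comp (by fun_prop) m2).sub (c1.comp (by fun_prop) m1)).intervalIntegrable]
  simp only [ofReal_zero, zero_mul, add_zero, ofReal_mul, mul_assoc]
  ring

theorem pshrink {z0 : ℂ} (hz : z0 ∈ Pa c h 0 1) {ρ' : ℝ} (hρ : ρ < ρ') :
    cPa c h ((1 - ρ : ℝ) * z0) ρ ⊆ Pa c h ((1 - ρ' : ℝ) * z0) ρ' := fun z h => by
  simp only [Pa, cPa, mem_ofPred_eq, sub_zero, sub_im, sub_re, re_ofReal_mul, im_ofReal_mul,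
    one_mul] at *
  have k := sub_pos.2 hρ
  refine ⟨?_, ?_, ?_, ?_⟩
  · linarith [h.1, mul_pos k hz.1]
  · linarith [h.2.1, mul_lt_mul_of_pos_left hz.2.1 k]
  · linarith [h.2.2.1, mul_lt_mul_of_pos_left hz.2.2.1 k]
  · linarith [h.2.2.2, mul_lt_mul_of_pos_left hz.2.2.2 k]

theorem pexhaust {z0 : ℂ} (hz : z0 ∈ Pa c h 0 1) {f : ℂ → ℂ} (hi : IntegrableOn f (Pa c h 0 1))
    {M : ℝ} (hM : ∀ ρ : ℝ, 0 < ρ → ρ < 1 → ‖∫ z in Pa c h ((1 - ρ : ℝ) * z0) ρ, f z‖ ≤ M) :
    ‖∫ z in Pa c h 0 1, f z‖ ≤ M := by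
  set ρ : ℕ → ℝ := fun m => 1 - 1 / ((m : ℝ) + 2) with hρ
  have hρ0 : ∀ m, 0 < ρ m := fun m => by
    have : 1 / ((m : ℝ) + 2) < 1 := by
      rw [div_lt_one (by positivity)]
      linarith [Nat.cast_nonneg (α := ℝ) m]
    exact sub_pos.2 this
  have hρ1 : ∀ m, ρ m < 1 := fun m => sub_lt_self _ (by positivity)
  have hρm : StrictMono ρ := fun a b hab => by
    have : (a : ℝ) < b := by exact_mod_cast hab
    exact sub_lt_sub_left (one_div_lt_one_div_of_lt (by positivity) (by linarith)) _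
  have hρt : Tendsto ρ atTop (𝓝 1) := by
    have : Tendsto (fun m : ℕ => 1 / ((m : ℝ) + 2)) atTop (𝓝 0) :=
      tendsto_const_nhds.div_atTop (tendsto_atTop_add_const_right _ _ tendsto_natCast_atTop_atTop)
    have h2 := this.const_sub 1
    rwa [sub_zero] at h2
  have hU : ⋃ m, Pa c h ((1 - ρ m : ℝ) * z0) (ρ m) = Pa c h 0 1 := by
    refine subset_antisymm (iUnion_subset fun m => ?_) fun z hz => ?_
    · simpa using Pa_subset.trans (pshrink hz (hρ1 m))
    have ho : IsOpen {r : ℝ | z ∈ Pa c h ((1 - r : ℝ) * z0) r} :=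
      (isOpen_lt (f := fun _ => 0) (g := fun r : ℝ => (z - (1 - r : ℝ) * z0).im) (by fun_prop)
        (by fun_prop)).inter ((isOpen_lt (f := fun r : ℝ => (z - (1 - r : ℝ) * z0).im)
          (g := fun r : ℝ => r * h) (by fun_prop) (by fun_prop)).inter
          ((isOpen_lt (f := fun r : ℝ => c * (z - (1 - r : ℝ) * z0).im)
          (g := fun r : ℝ => (z - (1 - r : ℝ) * z0).re) (by fun_prop) (by fun_prop)).inter
            (isOpen_lt (f := fun r : ℝ => (z - (1 - r : ℝ) * z0).re)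
              (g := fun r : ℝ => r + c * (z - (1 - r : ℝ) * z0).im) (by fun_prop) (by fun_prop))))
    obtain ⟨m, hm⟩ := (hρt.eventually (ho.mem_nhds (by simpa using hz))).exists
    exact mem_iUnion.2 ⟨m, hm⟩
  have ht := tendsto_setIntegral_of_monotone (μ := volume) (f := f)
    (s := fun m => Pa c h ((1 - ρ m : ℝ) * z0) (ρ m)) (fun m => isOpen_Pa.measurableSet)
    (monotone_nat_of_le_succ fun m => Pa_subset.trans (pshrink hz (hρm (Nat.lt_succ_self m))))
    (by rw [hU]; exact hi)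
  rw [hU] at ht
  exact le_of_tendsto' ht.norm fun m => hM _ (hρ0 m) (hρ1 m)

end Pool.Agent.FS.Rhombi
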