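import Pool.Agent.Lib.MP_7c5c90_an.TR.Lower

/-!
The Schwarz-Christoffel map of the disc into a rhombus.
-/

set_option autoImplicit false

open MeasureTheory Set Complex Filter Topology Metric
open scoped Real ComplexConjugate

namespace Pool.Agent.FS.Rhombi

open Pool.Agent.Lib.MP_7c5c90_an Pool.Agent.Lib.MP_7c5c90_an.RP Pool.Agent.Lib.MP_7c5c90_an.TR

variable {a b : ℝ}

/-- The angles of a rhombus divided by `π`. -/
structure An (a b : ℝ) : Prop where
  ha : 0 < a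
  hb : 0 < b
  hs : a + b = 1

theorem An.rot (h : An a b) : An b a := ⟨h.hb, h.ha, by linarith [h.hs]⟩

theorem An.lt (h : An a b) : a < 1 := by linarith [h.hb, h.hs]

/-- The derivative of the map. -/
noncomputable def rd (a b : ℝ) (ξ : ℂ) : ℂ :=
  Complex.exp ((a - 1 : ℝ) * Complex.log (1 - ξ ^ 2) + (b - 1 : ℝ) * Complex.log (1 - -ξ ^ 2))

/-- The map. -/
noncomputable def rs (a b : ℝ) (w : ℂ) : ℂ := ∫ t in (0 : ℝ)..1, w * rd a b (t * w)

/-- The plane without four rays. -/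
def Ur : Set ℂ := {w | 1 - w ^ 2 ∈ slitPlane ∧ 1 - -w ^ 2 ∈ slitPlane}

theorem isOpen_Ur : IsOpen Ur :=
  (isOpen_slitPlane.preimage (f := fun w : ℂ => 1 - w ^ 2) (by fun_prop)).inter
    (isOpen_slitPlane.preimage (f := fun w : ℂ => 1 - -w ^ 2) (by fun_prop))

theorem Ur_star : ∀ z ∈ Ur, ∀ t : ℝ, t ∈ Icc (0 : ℝ) 1 → (t : ℂ) * z ∈ Ur := fun z hz t ht => by
  have h2 : t ^ 2 ∈ Icc (0 : ℝ) 1 := ⟨sq_nonneg t, pow_le_one₀ ht.1 ht.2⟩
  have a1 := star_slit hz.1 h2
  have a2 := star_slit hz.2 h2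
  rw [ofReal_pow] at a1 a2
  exact ⟨by rwa [mul_pow], by rwa [mul_pow, ← mul_neg]⟩

theorem differentiableAt_rd {z : ℂ} (hz : z ∈ Ur) : DifferentiableAt ℂ (rd a b) z :=
  (((DifferentiableAt.clog (f := fun w : ℂ => 1 - w ^ 2) (x := z) (by fun_prop) hz.1).const_mul
    _).add ((DifferentiableAt.clog (f := fun w : ℂ => 1 - -w ^ 2) (x := z) (by fun_prop)
      hz.2).const_mul _)).cexp

theorem hasDerivAt_rs {z : ℂ} (hz : z ∈ Ur) : HasDerivAt (rs a b) (rd a b z) z :=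
  hasDerivAt_radial isOpen_Ur Ur_star
    (fun _ hw => (differentiableAt_rd hw).differentiableWithinAt) hz

theorem sq_lt {z : ℂ} (hz : ‖z‖ < 1) : ‖z ^ 2‖ < 1 ∧ ‖-z ^ 2‖ < 1 := by
  rw [norm_neg, norm_pow, and_self]
  exact pow_lt_one₀ (norm_nonneg _) hz two_ne_zero

theorem mem_Ur {z : ℂ} (hz : ‖z‖ < 1) : z ∈ Ur :=
  ⟨Or.inl (re_one_sub' (sq_lt hz).1), Or.inl (re_one_sub' (sq_lt hz).2)⟩

theorem rd_rot (z : ℂ) : rd a b (I * z) = rd b a z := by
  rw [rd, rd, mul_pow, I_sq, neg_one_mul, neg_neg, add_comm]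

theorem rs_rot (w : ℂ) : rs a b (I * w) = I * rs b a w := by
  rw [rs, rs, ← intervalIntegral.integral_const_mul]
  congr 1
  ext t
  rw [mul_left_comm (t : ℂ), rd_rot, mul_assoc]

theorem rd_neg (z : ℂ) : rd a b (-z) = rd a b z := by rw [rd, rd, neg_sq]

theorem rs_neg (w : ℂ) : rs a b (-w) = -rs a b w := by
  rw [rs, rs, ← intervalIntegral.integral_neg]
  congr 1
  ext t
  rw [mul_neg, rd_neg, neg_mul]

theorem norm_rd {z : ℂ} (hz : ‖z‖ < 1) : ‖rd a b z‖ =
    ‖1 - z ^ 2‖ ^ (a - 1) * ‖1 - -z ^ 2‖ ^ (b - 1) := by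
  rw [Real.rpow_def_of_pos (norm_pos_iff.2 (one_sub_ne (sq_lt hz).1)),
    Real.rpow_def_of_pos (norm_pos_iff.2 (one_sub_ne (sq_lt hz).2)), ← Real.exp_add,
    rd, Complex.norm_exp, add_re, re_ofReal_mul, re_ofReal_mul, Complex.log_re, Complex.log_re]
  congr 1
  ring

theorem norm_rd_le (h : An a b) {w : ℂ} (hw : ‖w‖ ≤ 1) {t : ℝ} (h0 : 0 ≤ t) (h1 : t < 1) :
    ‖rd a b (t * w)‖ ≤ 2 * ((1 - t) ^ (a - 1) + (1 - t) ^ (b - 1)) := by
  have a1 : ‖(t : ℂ) * w‖ ≤ t := by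
    rw [norm_mul, Complex.norm_real, Real.norm_of_nonneg h0]
    exact mul_le_of_le_one_right h0 hw
  rw [norm_rd (a1.trans_lt h1)]
  generalize (t : ℂ) * w = z at a1
  have a0 : ‖z ^ 2‖ ≤ t := by
    rw [norm_pow]
    nlinarith [norm_nonneg z]
  generalize z ^ 2 = y at a0
  have a2 : ∀ y : ℂ, ‖y‖ ≤ t → ∀ α : ℝ, α < 1 → ‖1 - y‖ ^ (α - 1) ≤ (1 - t) ^ (α - 1) :=
    fun y hy α hα => by
      have a3 := norm_sub_norm_le (1 : ℂ) y
      rw [norm_one] at a3
      exact Real.rpow_le_rpow_of_nonpos (by linarith) (by linarith) (by linarith)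
  have b0 := a2 y a0 a h.lt
  have b1 := a2 (-y) (by rwa [norm_neg]) b h.rot.lt
  have s1 := norm_add_le (1 - y) (1 - -y)
  rw [show 1 - y + (1 - -y) = 2 by ring, Complex.norm_ofNat] at s1
  have c0 := fun hx => rpow_le_two (x := ‖1 - y‖) hx h.ha h.lt
  have c1 := fun hx => rpow_le_two (x := ‖1 - -y‖) hx h.hb h.rot.lt
  have p0 := Real.rpow_nonneg (norm_nonneg (1 - y)) (a - 1)
  have p1 := Real.rpow_nonneg (norm_nonneg (1 - -y)) (b - 1)
  by_cases k0 : 1 / 2 ≤ ‖1 - y‖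
  · linarith [mul_le_mul_of_nonneg_right (c0 k0) p1]
  · linarith [mul_le_mul_of_nonneg_left (c1 (by linarith)) p0]

theorem continuousOn_rs (h : An a b) : ContinuousOn (rs a b) (closedBall 0 1) := by
  intro z hz
  have hne : ∀ᵐ t : ℝ, t ≠ 1 := compl_mem_ae_iff.2 (measure_singleton 1)
  have hlt : ∀ w ∈ closedBall (0 : ℂ) 1, ∀ t : ℝ, 0 ≤ t → t < 1 → ‖(t : ℂ) * w‖ < 1 := by
    intro w hw t h0 h1
    rw [norm_mul, Complex.norm_real, Real.norm_of_nonneg h0]
    exact (mul_le_of_le_one_right h0 (mem_closedBall_zero_iff.1 hw)).trans_lt h1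
  have hi : ∀ α : ℝ, 0 < α → IntervalIntegrable (fun t : ℝ => (1 - t) ^ (α - 1)) volume 0 1 :=
    fun α hα => by
      have := (intervalIntegral.intervalIntegrable_rpow' (a := 1) (b := 0) (r := α - 1)
        (by linarith)).comp_sub_left 1
      simpa using this
  refine intervalIntegral.continuousWithinAt_of_dominated_interval
    (bound := fun t => 2 * ((1 - t) ^ (a - 1) + (1 - t) ^ (b - 1))) ?_ ?_
    (((hi a h.ha).add (hi b h.hb)).const_mul 2) ?_
  · refine Eventually.of_forall fun w => Measurable.aestronglyMeasurable ?_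
    unfold rd
    exact measurable_const.mul (Complex.measurable_exp.comp ((measurable_const.mul
      (Complex.measurable_log.comp (by fun_prop))).add (measurable_const.mul
        (Complex.measurable_log.comp (by fun_prop)))))
  · filter_upwards [self_mem_nhdsWithin] with w hw
    filter_upwards [hne] with t ht ht'
    rw [uIoc_of_le zero_le_one] at ht'
    rw [norm_mul]
    exact (mul_le_of_le_one_left (norm_nonneg _) (mem_closedBall_zero_iff.1 hw)).trans
      (norm_rd_le h (mem_closedBall_zero_iff.1 hw) ht'.1.le (lt_of_le_of_ne ht'.2 ht))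
  · filter_upwards [hne] with t ht ht'
    rw [uIoc_of_le zero_le_one] at ht'
    refine ContinuousAt.continuousWithinAt (continuousAt_id.mul ?_)
    exact ContinuousAt.comp (f := fun w : ℂ => (t : ℂ) * w) (differentiableAt_rd
      (mem_Ur (hlt z hz t ht'.1.le (lt_of_le_of_ne ht'.2 ht)))).continuousAt (by fun_prop)

theorem rd_arc (h : An a b) {t : ℝ} (h0 : 0 < t) (h1 : t < π / 2) :
    e t ∈ Ur ∧ ∃ r : ℝ, 0 < r ∧ rd a b (e t) * e t = r * e (π * b / 2) := by
  have hp := Real.pi_pos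
  have e1 : e t ^ 2 = e (2 * t) := by rw [e_pow, Nat.cast_ofNat]
  have e2 : -e t ^ 2 = e (π + 2 * t) := by rw [e_add, e_pi, e1, neg_one_mul]
  obtain ⟨a0, b0⟩ := log_one_sub_e (φ := 2 * t) (by linarith) (by linarith)
  obtain ⟨a1, b1⟩ := log_one_sub_e (φ := π + 2 * t) (by linarith) (by linarith)
  refine ⟨⟨e1 ▸ a0, e2 ▸ a1⟩, _, Real.exp_pos ((a - 1) * Real.log (2 * Real.sin (2 * t / 2)) +
    (b - 1) * Real.log (2 * Real.sin ((π + 2 * t) / 2))), ?_⟩
  rw [rd, e2, e1, b0, b1, ofReal_exp, e, e, ← Complex.exp_add, ← Complex.exp_add,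
    show a = 1 - b by linarith [h.hs]]
  congr 1
  push_cast
  ring

theorem rarc_deriv (h : An a b) (κ : ℂ) :
    ContinuousOn (fun t => (κ * rs a b (e t)).re) (Icc 0 (π / 2)) ∧
      ∀ t ∈ interior (Icc 0 (π / 2)), ∃ r : ℝ, 0 < r ∧
        HasDerivAt (fun t => (κ * rs a b (e t)).re) (r * (κ * (I * e (π * b / 2))).re) t := by
  refine ⟨continuous_re.comp_continuousOn (continuousOn_const.mul ((continuousOn_rs h).comp
    continuous_e.continuousOn fun t _ => mem_closedBall_zero_iff.2 (norm_e t).le)), fun t ht => ?_⟩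
  rw [interior_Icc] at ht
  obtain ⟨hU, r, hr, h⟩ := rd_arc h ht.1 ht.2
  have a1 : HasDerivAt e (e t * I) t :=
    deriv_ray (b := I) (t := t) (Complex.hasDerivAt_exp _)
  have a2 := ((hasDerivAt_rs (a := a) (b := b) hU).comp_of_eq t a1 rfl).const_mul κ
  refine ⟨r, hr, (reCLM.hasFDerivAt.comp_hasDerivAt t a2).congr_deriv ?_⟩
  rw [reCLM_apply, ← mul_assoc (rd a b _), h, ← re_ofReal_mul]
  congr 1
  ring

theorem rarc_mono (h : An a b) {κ : ℂ} (hκ : 0 ≤ (κ * (I * e (π * b / 2))).re) :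
    MonotoneOn (fun t => (κ * rs a b (e t)).re) (Icc 0 (π / 2)) := by
  obtain ⟨h1, h2⟩ := rarc_deriv h κ
  refine monotoneOn_of_deriv_nonneg (convex_Icc _ _) h1 (fun t ht => ?_) fun t ht => ?_
  · obtain ⟨r, -, h⟩ := h2 t ht
    exact h.differentiableAt.differentiableWithinAt
  · obtain ⟨r, hr, h'⟩ := h2 t ht
    rw [h'.deriv]
    exact mul_nonneg hr.le hκ

theorem e_half : e (π / 2) = I := by
  rw [e_eq, Real.cos_pi_div_two, Real.sin_pi_div_two]
  simp

theorem rarc_le (h : An a b) {κ : ℂ} {M : ℝ} (h0 : (κ * rs a b 1).re ≤ M)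
    (h1 : (κ * rs a b I).re ≤ M) {t : ℝ} (ht : t ∈ Icc 0 (π / 2)) :
    (κ * rs a b (e t)).re ≤ M := by
  rcases le_total 0 (κ * (I * e (π * b / 2))).re with k | k
  · have := rarc_mono h k ht (right_mem_Icc.2 Real.pi_div_two_pos.le) ht.2
    simp only [e_half] at this
    linarith
  · have := rarc_mono h (κ := -κ) (by rw [neg_mul, neg_re]; linarith)
      (left_mem_Icc.2 Real.pi_div_two_pos.le) ht ht.1
    simp only [neg_mul, neg_re, e_zero] at this
    linarith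

theorem rside (h : An a b) :
    ∃ l : ℝ, 0 < l ∧ rs a b I - rs a b 1 = l * (I * e (π * b / 2)) := by
  have hd : I * e (π * b / 2) ≠ 0 := mul_ne_zero I_ne_zero (e_ne _)
  generalize hD : I * e (π * b / 2) = D at hd
  have m0 := left_mem_Icc.2 Real.pi_div_two_pos.le
  have m1 := right_mem_Icc.2 Real.pi_div_two_pos.le
  obtain ⟨h1, h2⟩ := rarc_deriv h D⁻¹
  have a1 := strictMonoOn_of_deriv_pos (convex_Icc _ _) h1 (fun t ht => by
    obtain ⟨r, hr, h'⟩ := h2 t ht
    rw [h'.deriv, hD, inv_mul_cancel₀ hd, one_re, mul_one]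
    exact hr) m0 m1 Real.pi_div_two_pos
  have a2 := rarc_mono h (κ := I * D⁻¹) (by rw [hD, mul_assoc, inv_mul_cancel₀ hd]; simp)
    m0 m1 Real.pi_div_two_pos.le
  have a3 := rarc_mono h (κ := -I * D⁻¹) (by rw [hD, mul_assoc, inv_mul_cancel₀ hd]; simp)
    m0 m1 Real.pi_div_two_pos.le
  simp only [e_zero, e_half, mul_assoc, neg_mul, neg_re, I_mul_re, neg_neg] at a1 a2 a3
  refine ⟨_, sub_pos.2 a1, ?_⟩
  rw [← mul_inv_eq_iff_eq_mul₀ hd, mul_comm, mul_sub]
  apply Complex.ext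
  · rw [sub_re, ofReal_re]
  · rw [sub_im, ofReal_im]
    linarith

theorem circle_four {z : ℂ} (hz : ‖z‖ = 1) :
    ∃ t ∈ Icc 0 (π / 2), z = e t ∨ z = I * e t ∨ z = -e t ∨ z = -(I * e t) := by
  have hp := Real.pi_div_two_pos
  have h0 : 0 ≤ (arg z + 2 * π) / (π / 2) :=
    div_nonneg (by linarith [neg_pi_lt_arg z, Real.pi_pos]) hp.le
  set j := ⌊(arg z + 2 * π) / (π / 2)⌋₊ with hj
  have h1 := (le_div_iff₀ hp).1 (Nat.floor_le h0)
  have h2 := (div_lt_iff₀ hp).1 (Nat.lt_floor_add_one ((arg z + 2 * π) / (π / 2)))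
  rw [← hj] at h1 h2
  have h3 : z = I ^ j * e (arg z + 2 * π - j * (π / 2)) := by
    rw [← e_half, e_pow, ← e_add, add_sub_cancel, e_add]
    have := norm_mul_exp_arg_mul_I z
    rw [hz] at this
    simpa [e] using this.symm
  refine ⟨arg z + 2 * π - j * (π / 2), ⟨by linarith, by linarith⟩, ?_⟩
  rw [pow_eq_pow_mod j I_pow_four] at h3
  have h4 := Nat.mod_lt j four_pos
  generalize j % 4 = k at h3 h4
  interval_cases k
  · exact Or.inl (by rwa [pow_zero, one_mul] at h3)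
  · exact Or.inr (Or.inl (by rwa [pow_one] at h3))
  · exact Or.inr (Or.inr (Or.inl (by rwa [I_sq, neg_one_mul] at h3)))
  · exact Or.inr (Or.inr (Or.inr (by rwa [I_pow_three, neg_mul] at h3)))

theorem rimage_le (h : An a b) {κ : ℂ} {M : ℝ} (h0 : |(κ * rs a b 1).re| ≤ M)
    (h1 : |(κ * rs a b I).re| ≤ M) {w : ℂ} (hw : ‖w‖ ≤ 1) : (κ * rs a b w).re ≤ M := by
  have hd : DiffContOnCl ℂ (fun w => Complex.exp (κ * rs a b w)) (ball 0 1) := by
    refine ⟨fun w hw => (((hasDerivAt_rs (mem_Ur (mem_ball_zero_iff.1 hw))).differentiableAt.const_mul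
      _).cexp).differentiableWithinAt, ?_⟩
    rw [closure_ball _ one_ne_zero]
    exact (continuousOn_const.mul (continuousOn_rs h)).cexp
  have := Complex.norm_le_of_forall_mem_frontier_norm_le isBounded_ball hd (C := Real.exp M)
    (fun z hz => ?_) (z := w) (by rwa [closure_ball _ one_ne_zero, mem_closedBall_zero_iff])
  · rwa [Complex.norm_exp, Real.exp_le_exp] at this
  rw [frontier_ball _ one_ne_zero, mem_sphere_zero_iff_norm] at hz
  rw [Complex.norm_exp, Real.exp_le_exp]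
  obtain ⟨a0, b0⟩ := abs_le.1 h0
  obtain ⟨a1, b1⟩ := abs_le.1 h1
  have r1 : I * rs b a 1 = rs a b I := by rw [← rs_rot, mul_one]
  have r2 : I * rs b a I = -rs a b 1 := by rw [← rs_rot, I_mul_I, rs_neg]
  obtain ⟨t, ht, rfl | rfl | rfl | rfl⟩ := circle_four hz
  · exact rarc_le h b0 b1 ht
  · rw [rs_rot, ← mul_assoc]
    refine rarc_le h.rot ?_ ?_ ht
    · rwa [mul_assoc, r1]
    · rw [mul_assoc, r2, mul_neg, neg_re]
      linarith
  · rw [rs_neg, mul_neg, ← neg_mul]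
    refine rarc_le h ?_ ?_ ht <;> rw [neg_mul, neg_re] <;> linarith
  · rw [rs_neg, rs_rot, mul_neg, ← neg_mul, ← mul_assoc]
    refine rarc_le h.rot ?_ ?_ ht
    · rw [mul_assoc, r1, neg_mul, neg_re]
      linarith
    · rwa [mul_assoc, r2, neg_mul_neg]

theorem rs_zero : rs a b 0 = 0 := by simp [rs]

theorem rd_re_pos (h : An a b) {z : ℂ} (hz : ‖z‖ < 1) : 0 < (rd a b z).re := by
  have h1 := abs_lt.1 (Complex.abs_arg_lt_pi_div_two_iff.2 (Or.inl (re_one_sub' (sq_lt hz).1)))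
  have h2 := abs_lt.1 (Complex.abs_arg_lt_pi_div_two_iff.2 (Or.inl (re_one_sub' (sq_lt hz).2)))
  rw [rd, Complex.exp_re, add_im, im_ofReal_mul, im_ofReal_mul, Complex.log_im, Complex.log_im,
    show a - 1 = -b by linarith [h.hs], show b - 1 = -a by linarith [h.hs]]
  have e1 : π / 2 = b * (π / 2) + a * (π / 2) := by rw [← add_mul, add_comm, h.hs, one_mul]
  refine mul_pos (Real.exp_pos _) (Real.cos_pos_of_mem_Ioo ⟨?_, ?_⟩)
  · linarith [mul_lt_mul_of_pos_left h1.2 h.hb, mul_lt_mul_of_pos_left h2.2 h.ha]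
  · linarith [mul_lt_mul_of_pos_left h1.1 h.hb, mul_lt_mul_of_pos_left h2.1 h.ha]

theorem injOn_rs (h : An a b) : InjOn (rs a b) (ball 0 1) := by
  intro x ha y hb hab
  by_contra hne
  have hd0 : y - x ≠ 0 := sub_ne_zero.2 (Ne.symm hne)
  have hmem : ∀ t ∈ Icc (0 : ℝ) 1, ‖x + (t : ℂ) * (y - x)‖ < 1 := fun t ht => by
    simpa using (convex_ball (0 : ℂ) 1).add_smul_sub_mem ha hb ht
  have hd : ∀ t ∈ Icc (0 : ℝ) 1,
      HasDerivAt (fun t : ℝ => (rs a b (x + (t : ℂ) * (y - x)) / (y - x)).re)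
        (rd a b (x + (t : ℂ) * (y - x))).re t := fun t ht =>
    reCLM.hasFDerivAt.comp_hasDerivAt t
      (((deriv_line (hasDerivAt_rs (mem_Ur (hmem t ht)))).div_const (y - x)).congr_deriv
        (mul_div_cancel_right₀ _ hd0))
  have hm : StrictMonoOn (fun t : ℝ => (rs a b (x + (t : ℂ) * (y - x)) / (y - x)).re) (Icc 0 1) := by
    refine strictMonoOn_of_deriv_pos (convex_Icc 0 1)
      (fun s hs => (hd s hs).continuousAt.continuousWithinAt) fun t ht => ?_
    rw [(hd t (interior_subset ht)).deriv]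
    exact rd_re_pos h (hmem t (interior_subset ht))
  have := hm (left_mem_Icc.2 zero_le_one) (right_mem_Icc.2 zero_le_one) zero_lt_one
  simp [hab] at this

theorem rs_one_im : (rs a b 1).im = 0 := by
  have : rs a b 1 = ((∫ t in (0 : ℝ)..1, Real.exp ((a - 1) * Real.log (1 - t ^ 2) +
      (b - 1) * Real.log (1 - -t ^ 2)) : ℝ) : ℂ) := by
    rw [rs, ← intervalIntegral.integral_ofReal]
    refine intervalIntegral.integral_congr fun t ht => ?_
    rw [uIcc_of_le zero_le_one] at ht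
    simp only [one_mul, mul_one]
    rw [rd, ofReal_exp, ofReal_add, ofReal_mul, ofReal_mul,
      Complex.ofReal_log (sub_nonneg.2 (pow_le_one₀ ht.1 ht.2)),
      Complex.ofReal_log (by nlinarith [sq_nonneg t])]
    push_cast
    rfl
  rw [this, ofReal_im]

theorem norm_rd_real {x : ℝ} (h0 : 0 ≤ x) (h1 : x < 1) :
    ‖rd a b x‖ = (1 - x ^ 2) ^ (a - 1) * (1 + x ^ 2) ^ (b - 1) := by
  rw [norm_rd (by rwa [Complex.norm_real, Real.norm_of_nonneg h0]),
    show (1 - x ^ 2 : ℂ) = (1 - x ^ 2 : ℝ) by norm_cast,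
    show (1 - -x ^ 2 : ℂ) = (1 + x ^ 2 : ℝ) by push_cast; ring, Complex.norm_real, Complex.norm_real,
    Real.norm_of_nonneg (sub_nonneg.2 (pow_le_one₀ h0 h1.le)), Real.norm_of_nonneg (by positivity)]

/-- The weight inequality. -/
theorem rweight (h : An a b) {s : ℝ} (h0 : 0 < s) (h1 : s < 1) :
    4 * s * (a * ‖rs a b 1 - rs a b s‖) ≤ (1 - s ^ 4) * ‖rd a b s‖ := by
  have ha := h.ha
  set R : ℝ → ℝ := fun x => (1 - x ^ 2) ^ a * (1 + x ^ 2) ^ b / (4 * a * x) with hR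
  have hp : ∀ x : ℝ, 0 < x → x < 1 → (1 - x ^ 2) ^ a = (1 - x ^ 2) * (1 - x ^ 2) ^ (a - 1) ∧
      (1 + x ^ 2) ^ b = (1 + x ^ 2) * (1 + x ^ 2) ^ (b - 1) := fun x a b => by
    have k1 := (sub_pos.2 (pow_lt_one₀ a.le b two_ne_zero)).ne'
    have k2 : 1 + x ^ 2 ≠ 0 := by positivity
    rw [Real.rpow_sub_one k1, Real.rpow_sub_one k2, mul_div_cancel₀ _ k1, mul_div_cancel₀ _ k2]
    exact ⟨rfl, rfl⟩
  have hd : ∀ x : ℝ, 0 < x → x < 1 → ∃ d, HasDerivAt R d x ∧ ‖rd a b x‖ ≤ -d := fun x x0 x1 => by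
    have k1 := pow_lt_one₀ x0.le x1 two_ne_zero
    have a1 := ((hasDerivAt_pow 2 x).const_sub 1).rpow_const (p := a) (Or.inl (sub_pos.2 k1).ne')
    have a2 := ((hasDerivAt_pow 2 x).const_add 1).rpow_const (p := b) (Or.inl (by positivity))
    refine ⟨_, (a1.mul a2).div ((hasDerivAt_id x).const_mul (4 * a))
      (by change 4 * a * x ≠ 0; positivity), ?_⟩
    rw [norm_rd_real x0.le x1]
    simp only [Pi.mul_apply]
    rw [(hp x x0 x1).1, (hp x x0 x1).2]
    have p1 := Real.rpow_pos_of_pos (sub_pos.2 k1) (a - 1)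
    have p2 := Real.rpow_pos_of_pos (show 0 < 1 + x ^ 2 by positivity) (b - 1)
    generalize (1 - x ^ 2) ^ (a - 1) = X at p1
    generalize (1 + x ^ 2) ^ (b - 1) = Y at p2
    have k2 : 0 ≤ (1 - x ^ 2) ^ 2 * (X * Y / (4 * a * x ^ 2)) := by positivity
    rw [← sub_nonneg]
    refine k2.trans_eq ?_
    rw [show b = 1 - a by linarith [h.hs]]
    push_cast
    field_simp
    ring
  have hm : ∀ x ∈ Icc s 1, (x : ℂ) ∈ closedBall (0 : ℂ) 1 := fun x hx => by
    rw [mem_closedBall_zero_iff, Complex.norm_real, Real.norm_of_nonneg (h0.le.trans hx.1)]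
    exact hx.2
  have hc : ContinuousOn R (Icc s 1) :=
    ContinuousOn.div (ContinuousOn.mul (ContinuousOn.rpow_const (by fun_prop) fun _ _ => Or.inr ha.le)
      (ContinuousOn.rpow_const (by fun_prop) fun _ _ => Or.inl (by positivity))) (by fun_prop)
      fun x hx => by have := h0.trans_le hx.1; positivity
  have key := image_norm_le_of_norm_deriv_right_le_deriv_boundary'
    (f := fun x : ℝ => rs a b x - rs a b s) (f' := fun x : ℝ => rd a b x) (a := s) (b := 1)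
    (((continuousOn_rs h).comp (by fun_prop) hm).sub continuousOn_const) (fun x hx => by
      have a1 := (hasDerivAt_rs (a := a) (b := b) (mem_Ur (z := x)
        (by rw [Complex.norm_real, Real.norm_of_nonneg (h0.le.trans hx.1)]; exact hx.2))).comp_ofReal
      exact (a1.sub_const _).hasDerivWithinAt)
    (B := fun x => R s - R x) (B' := fun x => -deriv R x) (by simp) (continuousOn_const.sub hc)
    (fun x hx => by
      obtain ⟨d, k, -⟩ := hd x (h0.trans_le hx.1) hx.2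
      rw [k.deriv]
      exact (k.const_sub _).hasDerivWithinAt) (fun x hx => by
      obtain ⟨d, k, k'⟩ := hd x (h0.trans_le hx.1) hx.2
      rwa [k.deriv]) (right_mem_Icc.2 h1.le)
  simp only [hR, one_pow, ofReal_one, sub_self, Real.zero_rpow ha.ne', zero_mul, zero_div,
    sub_zero, (hp s h0 h1).1, (hp s h0 h1).2] at key
  rw [le_div_iff₀ (by positivity)] at key
  rw [norm_rd_real h0.le h1]
  linarith

end Pool.Agent.FS.Rhombi
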