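import Pool.Agent.FS.Rhombi.SC
import Pool.Agent.FS.Rhombi.Par
import Pool.Agent.FS.Rhombi.Abs

/-!
The sharp bilinear estimate on a rhombus.
-/

set_option autoImplicit false

open MeasureTheory Set Complex Filter Topology Metric
open scoped Real ComplexConjugate

namespace Pool.Agent.FS.Rhombi

open Pool.Agent.Lib.MP_7c5c90_an Pool.Agent.Lib.MP_7c5c90_an.RP Pool.Agent.Lib.MP_7c5c90_an.TR

variable {a b : ℝ}

theorem An.sin_pos (h : An a b) : 0 < Real.sin (π * a) :=
  Real.sin_pos_of_pos_of_lt_pi (mul_pos Real.pi_pos h.ha) (mul_lt_of_lt_one_right Real.pi_pos h.lt)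

theorem rvertices (h : An a b) : ∃ C : ℂ, C ≠ 0 ∧ C * rs a b 1 = (1 + e (π * a)) / 2 ∧
    C * rs a b I = (e (π * a) - 1) / 2 := by
  obtain ⟨l, hl, h0⟩ := rside h
  obtain ⟨m, hm, h1⟩ := rside h.rot
  have hp := Real.pi_pos
  have r1 : I * rs b a 1 = rs a b I := by rw [← rs_rot, mul_one]
  have r2 : I * rs b a I = -rs a b 1 := by rw [← rs_rot, I_mul_I, rs_neg]
  have e1 : I * e (π * b / 2) = -e (-(π * a / 2)) := by
    rw [neg_eq_neg_one_mul, ← e_pi, ← e_half, ← e_add, ← e_add, show b = 1 - a by linarith [h.hs]]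
    congr 1
    ring
  have f1 : rs a b 1 + rs a b I = m * e (π * a / 2) := by
    linear_combination r2 - r1 - I * h1 - m * e (π * a / 2) * I_mul_I
  have f2 : 2 * rs a b 1 = m * e (π * a / 2) + l * e (-(π * a / 2)) := by
    linear_combination f1 - h0 - l * e1
  have g2 := congrArg Complex.im f2
  rw [show (2 : ℂ) = (2 : ℝ) by norm_num, im_ofReal_mul, rs_one_im, add_im, im_ofReal_mul,
    im_ofReal_mul, e_im, e_im, Real.sin_neg] at g2
  have sa : 0 < Real.sin (π * a / 2) := Real.sin_pos_of_pos_of_lt_pi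
    (by have := mul_pos hp h.ha; linarith) (by have := mul_lt_of_lt_one_right hp h.lt; linarith)
  have hml : m = l := mul_right_cancel₀ sa.ne' (by linarith)
  subst hml
  have hl' : (m : ℂ) ≠ 0 := ofReal_ne_zero.2 hl.ne'
  have k0 : (m : ℂ)⁻¹ * m = 1 := inv_mul_cancel₀ hl'
  have k1 : e (π * a / 2) * e (-(π * a / 2)) = 1 := by rw [← e_add, add_neg_cancel, e_zero]
  have k2 : e (π * a / 2) * e (π * a / 2) = e (π * a) := by rw [← e_add, add_halves]
  refine ⟨(m : ℂ)⁻¹ * e (π * a / 2), mul_ne_zero (inv_ne_zero hl') (e_ne _), ?_, ?_⟩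
  · linear_combination (m : ℂ)⁻¹ * e (π * a / 2) / 2 * f2 + k1 / 2 + k2 / 2 +
      (e (π * a / 2) * e (π * a / 2) + e (π * a / 2) * e (-(π * a / 2))) / 2 * k0
  · linear_combination (m : ℂ)⁻¹ * e (π * a / 2) * f1 - (m : ℂ)⁻¹ * e (π * a / 2) / 2 * f2 - k1 / 2 +
      k2 / 2 + (e (π * a / 2) * e (π * a / 2) - e (π * a / 2) * e (-(π * a / 2))) / 2 * k0

theorem rkey (h : An a b) (hb : a ≤ b) : ∃ z0 ∈ Pa (ct (π * a)) (Real.sin (π * a)) 0 1,
    ∀ F G : ℂ → ℂ, DifferentiableOn ℂ F (Pa (ct (π * a)) (Real.sin (π * a)) 0 1) →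
      DifferentiableOn ℂ G (Pa (ct (π * a)) (Real.sin (π * a)) 0 1) →
      IntegrableOn (fun z => ‖F z‖ ^ 2) (Pa (ct (π * a)) (Real.sin (π * a)) 0 1) →
      IntegrableOn (fun z => ‖G z‖ ^ 2) (Pa (ct (π * a)) (Real.sin (π * a)) 0 1) → F z0 = 0 →
      2 * (π * a) * ‖∫ z in Pa (ct (π * a)) (Real.sin (π * a)) 0 1, F z * G z‖ ≤ Real.sin (π * a) *
        ((∫ z in Pa (ct (π * a)) (Real.sin (π * a)) 0 1, ‖F z‖ ^ 2) +
          ∫ z in Pa (ct (π * a)) (Real.sin (π * a)) 0 1, ‖G z‖ ^ 2) := by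
  obtain ⟨C, hC, v1, v2⟩ := rvertices h
  have ha := h.ha
  have sa := h.sin_pos
  have k0 := (ct_coef sa).1
  rw [(e_ct sa).1] at v1 v2
  have n0 : ‖Real.sin (π * a) * e (-(π * a))‖ ≤ Real.sin (π * a) / a * a := by
    rw [norm_mul_e sa.le, div_mul_cancel₀ _ ha.ne']
  have hk : 0 ≤ Real.sin (π * a) / a := by positivity
  have n1 : ‖-(Real.sin (π * a) * e (-(π * a)))‖ ≤ Real.sin (π * a) / a * b := by
    rw [norm_neg]
    exact n0.trans (mul_le_mul_of_nonneg_left hb hk)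
  generalize (Real.sin (π * a) : ℂ) * e (-(π * a)) = a0 at *
  generalize ct (π * a) = x at *
  generalize Real.sin (π * a) = t at *
  set z0 : ℂ := (1 + t * (x + I)) / 2 with hz0
  have z1 : z0.re = (1 + t * x) / 2 := by simp [hz0]
  have z2 : z0.im = t / 2 := by simp [hz0]
  have hle : ∀ κ : ℂ, ∀ M : ℝ, |(κ * z0).re| ≤ M → |(κ * ((t * (x + I) - 1) / 2)).re| ≤ M →
      ∀ w : ℂ, ‖w‖ ≤ 1 → (κ * (C * rs a b w)).re ≤ M := fun κ M m1 m2 w hw => by
    rw [← mul_assoc]
    exact rimage_le h (by rwa [mul_assoc, v1]) (by rwa [mul_assoc, v2]) hw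
  have y1 : ((t * (x + I) - 1) / 2 : ℂ).re = (t * x - 1) / 2 := by simp
  have y2 : ((t * (x + I) - 1) / 2 : ℂ).im = t / 2 := by simp
  have p1 := hle I (t / 2) (by rw [I_mul_re, z2, abs_neg, abs_of_pos (by positivity)])
    (by rw [I_mul_re, y2, abs_neg, abs_of_pos (by positivity)])
  have p2 := hle (-I) (t / 2) (by rw [neg_mul, neg_re, I_mul_re, z2, neg_neg, abs_of_pos (by positivity)])
    (by rw [neg_mul, neg_re, I_mul_re, y2, neg_neg, abs_of_pos (by positivity)])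
  have q0 : ∀ z : ℂ, ((1 + x * I) * z).re = z.re - x * z.im := fun z => by simp
  have p3 := hle (1 + x * I) (1 / 2) (by rw [q0, z1, z2, abs_le]; constructor <;> linarith)
    (by rw [q0, y1, y2, abs_le]; constructor <;> linarith)
  have p4 := hle (-(1 + x * I)) (1 / 2)
    (by rw [neg_mul, neg_re, q0, z1, z2, abs_le]; constructor <;> linarith)
    (by rw [neg_mul, neg_re, q0, y1, y2, abs_le]; constructor <;> linarith)
  simp only [neg_mul, neg_re, q0, I_mul_re, neg_neg] at p1 p2 p3 p4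
  have hz : z0 ∈ Pa x t 0 1 := by
    simp only [Pa, mem_ofPred_eq, sub_zero, z1, z2]
    exact ⟨by linarith, by linarith, by linarith, by linarith⟩
  refine ⟨z0, hz, fun F G hF hG iF iG hF0 => ?_⟩
  have hFG := hF.mul hG
  obtain ⟨G1, hG1⟩ := exists_primitive_convex isOpen_Pa convex_Pa hFG
  have h1 : ∀ z ∈ Pa x t 0 1, HasDerivAt (fun z => G1 z - G1 z0) (F z * G z) z :=
    fun z hz => (hG1 z hz).sub_const _
  obtain ⟨G2, hG2⟩ := exists_primitive_convex isOpen_Pa convex_Pa (f := fun z => G1 z - G1 z0)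
    fun z hz => (h1 z hz).differentiableAt.differentiableWithinAt
  have h2 : ∀ z ∈ Pa x t 0 1, HasDerivAt (fun z => G2 z - G2 z0) (G1 z - G1 z0) z :=
    fun z hz => (hG2 z hz).sub_const _
  have hi : IntegrableOn (fun z => F z * G z) (Pa x t 0 1) :=
    Integrable.mono' (iF.add iG) (hFG.continuousOn.aestronglyMeasurable isOpen_Pa.measurableSet)
      (Eventually.of_forall fun z => by
        rw [norm_mul, Pi.add_apply]
        nlinarith [norm_nonneg (F z), norm_nonneg (G z), sq_nonneg (‖F z‖ - ‖G z‖)])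
  rw [← le_div_iff₀' (by positivity)]
  refine pexhaust hz hi fun ρ r0 r1 => ?_
  have hs : cPa x t ((1 - ρ : ℝ) * z0) ρ ⊆ Pa x t 0 1 := by simpa using pshrink hz r1
  have e0 : ((1 - ρ : ℝ) : ℂ) * z0 + ρ * (z0 + C * rs a b 0) = z0 := by
    rw [rs_zero]; push_cast; ring
  have step : ∀ (α : ℝ) (q v : ℂ) (s : ℝ), 0 < s → ‖q‖ ≤ t / a * α →
      4 * s * (α * ‖rs a b v - rs a b (v * s)‖) ≤ (1 - s ^ 4) * ‖rd a b (v * s)‖ →
      4 * s * (‖q‖ * ‖(1 - ρ : ℝ) * z0 + ρ * (z0 + C * rs a b v) -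
        ((1 - ρ : ℝ) * z0 + ρ * (z0 + C * rs a b (v * s)))‖) ≤
        t / a * (1 - s ^ 4) * ‖ρ * (C * rd a b (v * s))‖ :=
    fun α q v s s0 b1 b2 => by
      rw [show (1 - ρ : ℝ) * z0 + ρ * (z0 + C * rs a b v) -
        ((1 - ρ : ℝ) * z0 + ρ * (z0 + C * rs a b (v * s))) =
        ρ * C * (rs a b v - rs a b (v * s)) by ring,
        ← mul_assoc (ρ : ℂ), norm_mul (ρ * C), norm_mul (ρ * C)]
      linarith [mul_le_mul_of_nonneg_left b2 (mul_nonneg hk (norm_nonneg (ρ * C))),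
        mul_le_mul_of_nonneg_right b1 (show 0 ≤ 4 * s * (‖ρ * C‖ *
          ‖rs a b v - rs a b (v * s)‖) by positivity)]
  have hcore := core4 (U := Pa x t 0 1) (Φ := fun w => (1 - ρ : ℝ) * z0 + ρ * (z0 + C * rs a b w))
    (Φ' := fun w => ρ * (C * rd a b w)) hF hG iF iG h1 h2
    (fun w hw => ((((hasDerivAt_rs (mem_Ur (mem_ball_zero_iff.1 hw))).const_mul C).const_add
      _).const_mul _).const_add _)
    (fun w hw => (((differentiableAt_rd (mem_Ur (mem_ball_zero_iff.1 hw))).const_mul C).const_mul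
      _).differentiableWithinAt)
    (continuousOn_const.add (continuousOn_const.mul (continuousOn_const.add
      (continuousOn_const.mul (continuousOn_rs h)))))
    (fun w hw => hs (by
      have hw := mem_closedBall_zero_iff.1 hw
      simp only [cPa, mem_ofPred_eq, add_sub_cancel_left, re_ofReal_mul, im_ofReal_mul, add_re,
        add_im, z1, z2]
      exact ⟨by nlinarith [p1 w hw], by nlinarith [p2 w hw], by nlinarith [p4 w hw],
        by nlinarith [p3 w hw]⟩))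
    (fun v hv w hw hvw => injOn_rs h hv hw (mul_left_cancel₀ hC (add_left_cancel
      (mul_left_cancel₀ (ofReal_ne_zero.2 r0.ne') (add_left_cancel hvw)))))
    (by simp only [e0, hF0]) (by simp only [e0, sub_self]) (by simp only [e0, sub_self])
    (fun w => by simp only [rs_neg, rs_zero]; ring) (fun w => by simp only [rd_neg]) hk
    (a0 := a0) (a1 := -a0) (by
      simp only [List.mem_cons, List.not_mem_nil, or_false]
      rintro _ (rfl | rfl) s s0 s1
      · exact step a _ _ s s0 n0 (by simpa only [one_mul] using rweight h s0 s1)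
      · refine step b _ I s s0 n1 ?_
        rw [rd_rot, rs_rot, show rs a b I = I * rs b a 1 by rw [← rs_rot, mul_one], ← mul_sub,
          norm_mul, Complex.norm_I, one_mul]
        exact rweight h.rot s0 s1)
  rw [pdavis (f := fun z => F z * G z) sa r0 (hFG.continuousOn.mono hs)
    (fun z hz => h1 z (hs hz)) (fun z hz => h2 z (hs hz)) k0, le_div_iff₀' (by positivity)]
  simp only [rs_neg, mul_neg, v1, v2] at hcore
  rw [show (1 - ρ : ℝ) * z0 + ρ * (z0 + z0) = (1 - ρ : ℝ) * z0 + ρ + ρ * (t * (x + I)) by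
      rw [hz0]; ring, add_neg_cancel, mul_zero, add_zero,
    show (1 - ρ : ℝ) * z0 + ρ * (z0 + (t * (x + I) - 1) / 2) = (1 - ρ : ℝ) * z0 + ρ * (t * (x + I)) by
      rw [hz0]; ring,
    show (1 - ρ : ℝ) * z0 + ρ * (z0 + -((t * (x + I) - 1) / 2)) = (1 - ρ : ℝ) * z0 + ρ by
      rw [hz0]; ring, div_mul_eq_mul_div, le_div_iff₀ ha] at hcore
  linarith

end Pool.Agent.FS.Rhombi
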